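import Pool.Agent.PB.S3.Defs
import Pool.Agent.PB.Outs
import Pool.Agent.PB.T.Det

/-!
# PB-S3-Alpha: section 12.2, case (α): two disjoint long arms, by exploration

`P(Sph O r y ≠ ∅, Sph (O \ touch (Bl O (r-1) y)) r y' ≠ ∅) ≤ Γ_p(r)²`, `O = off (opn p ω) U`, `r ≥ 1`.

PLAN. K ω = Bl (off (opn p ω) U) (r-1) y; it is finite (`Bl_finite3`, below). For a finite set K0: the event E1 = {K ω = K0, Sph O r y ≠ ∅} depends only on
Sum.inl '' touch K0: if O, O' agree on touch K0 (then so do off O U, off O' U) and Bl O (r-1) y = K0, then `T10.Bl_congr` (h: agreement on touch K0, hK: Bl O (r-1) y ⊆ K0) gives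
Bl O j y = Bl O' j y for j ≤ r, and `T10.Sph_congr` the same for Sph. E2 = {Sph (off (opn p ω) U \ touch K0) r y' ≠ ∅} depends only on the labels of edges not
in touch K0 (`dep_opn`, `dep_comp`). So P(E1 ∩ E2) = P(E1) P(E2) (`Pr_inter_dep`), P(E2) ≤ Gam d p r with F = {e | e ∉ touch K0 ∧ no end point of e in U}
(off O U \ touch K0 = O ∩ F; le_iSup₂). Sum over K0 (disjoint events; `T10.expl_bound` or directly): ≤ P(Sph O r y ≠ ∅) Gam ≤ Gam² (F = {e | no end point in U}, radGe).
`Bl_finite3`: RchL (opn p ω) n y z → |z i - y i| ≤ n for all i: z ∈ bx n y, finite (`bx_finite3`).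
-/

set_option autoImplicit false
open MeasureTheory Filter Topology
open scoped ENNReal BigOperators

namespace Pool.Agent.PB

variable {d : ℕ}

private theorem al_step {p : ℝ} {ω : Om d} {a b : V d} (h : s(a, b) ∈ opn p ω) (i : Fin d) :
    |b i - a i| ≤ 1 := by
  have h1 : l1 (b - a) = 1 := h.1
  have h2 : |(b - a) i| ≤ l1 (b - a) := by
    unfold l1
    exact Finset.single_le_sum (f := fun i => |(b - a) i|) (fun _ _ => abs_nonneg _)
      (Finset.mem_univ i)
  rw [h1] at h2
  exact h2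

theorem RchL.mem_bx {p : ℝ} {ω : Om d} {n : ℕ} {y z : V d} (h : RchL (opn p ω) n y z) :
    z ∈ bx n y := by
  induction n generalizing z with
  | zero =>
    cases h
    exact self_mem_bx3 0 y
  | succ n ih =>
    rcases h with h | ⟨w, hw, hwz⟩
    · exact bx_mono3 (Nat.le_succ n) y (ih h)
    · intro i
      have h1 := ih hw i
      have h2 := al_step hwz i
      have h3 : |z i - y i| ≤ |z i - w i| + |w i - y i| := abs_sub_le _ _ _
      push_cast
      linarith

theorem Bl_finite3 (p : ℝ) (ω : Om d) (U : Set (V d)) (n : ℕ) (y : V d) :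
    (Bl (off (opn p ω) U) n y).Finite :=
  (bx_finite3 n y).subset fun _ hz => RchL.mem_bx (RchL.mono (off_subset _ _) hz)

private theorem al_off_inter (O : Set (Sym2 (V d))) (U K : Set (V d)) :
    off O U \ touch K = O ∩ {e | e ∉ touch K ∧ ∀ x ∈ e, x ∉ U} := by
  ext e
  simp only [Set.mem_sdiff, Set.mem_inter_iff, Set.mem_ofPred_eq, mem_off]
  tauto

private theorem al_off_inter' (O : Set (Sym2 (V d))) (U : Set (V d)) :
    off O U = O ∩ {e | ∀ x ∈ e, x ∉ U} := by
  ext e
  simp only [Set.mem_inter_iff, Set.mem_ofPred_eq, mem_off]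

private theorem al_dep (p : ℝ) (U : Set (V d)) {r : ℕ} (hr : 1 ≤ r) (y : V d)
    (K : Set (V d)) :
    DependsOn (fun ω : Om d => ω ∈ {ω : Om d | Bl (off (opn p ω) U) (r - 1) y = K ∧
      (Sph (off (opn p ω) U) r y).Nonempty}) (tI K) := by
  have key : ∀ ω ω' : Om d, (∀ i ∈ tI K, ω i = ω' i) →
      (Bl (off (opn p ω) U) (r - 1) y = K ∧ (Sph (off (opn p ω) U) r y).Nonempty) →
      (Bl (off (opn p ω') U) (r - 1) y = K ∧ (Sph (off (opn p ω') U) r y).Nonempty) := by
    intro ω ω' h hω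
    have h1 := dep_opn (d := d) p (touch K) (S := tI K) (fun e he => inl_mem_tI.2 he) h
    have h2 : ∀ e ∈ touch K, e ∈ off (opn p ω) U ↔ e ∈ off (opn p ω') U := by
      intro e he
      have h3 := Set.ext_iff.1 h1 e
      simp only [Set.mem_inter_iff, he, and_true] at h3
      rw [mem_off, mem_off, h3]
    have h4 := T10.Bl_congr (n := r - 1) h2 hω.1.le (r - 1) (by omega)
    have h5 := T10.Sph_congr (n := r - 1) h2 hω.1.le r (by omega)
    exact ⟨h4 ▸ hω.1, h5 ▸ hω.2⟩
  intro ω ω' h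
  exact propext ⟨key ω ω' h, key ω' ω fun i hi => (h i hi).symm⟩

private theorem al_expl {Ω T : Type*} [MeasurableSpace Ω] (μ : Measure Ω) [Countable T]
    {A D : T → Set Ω} {X : Set Ω} {c : ℝ≥0∞} (mA : ∀ t, MeasurableSet (A t))
    (hdis : Pairwise (Function.onFun Disjoint A)) (hX : ∀ t, A t ⊆ X)
    (h : ∀ t, μ (A t ∩ D t) ≤ μ (A t) * c) : μ (⋃ t, (A t ∩ D t)) ≤ μ X * c := by
  calc μ (⋃ t, (A t ∩ D t)) ≤ ∑' t, μ (A t ∩ D t) := measure_iUnion_le _
    _ ≤ ∑' t, μ (A t) * c := ENNReal.tsum_le_tsum h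
    _ = (∑' t, μ (A t)) * c := ENNReal.tsum_mul_right
    _ = μ (⋃ t, A t) * c := by rw [measure_iUnion hdis mA]
    _ ≤ μ X * c := by gcongr; exact Set.iUnion_subset hX

theorem alpha_bound (p : ℝ) (U : Set (V d)) {r : ℕ} (hr : 1 ≤ r) (y y' : V d) :
    Pr d {ω : Om d | (Sph (off (opn p ω) U) r y).Nonempty ∧
      (Sph (off (opn p ω) U \ touch (Bl (off (opn p ω) U) (r - 1) y)) r y').Nonempty} ≤
      Gam d p r * Gam d p r := by
  classical
  have hO : MES (fun ω : Om d => off (opn p ω) U) := (opn_MES p).rem (Del.ofSet U)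
  have hX : MeasurableSet {ω : Om d | (Sph (off (opn p ω) U) r y).Nonempty} := by
    have := (hO.sph r y).inter_const_nonempty Set.univ
    simp only [Set.mem_univ, true_and] at this
    exact this
  have hA : ∀ K : Set (V d), MeasurableSet {ω : Om d | Bl (off (opn p ω) U) (r - 1) y = K ∧
      (Sph (off (opn p ω) U) r y).Nonempty} := fun K =>
    ((hO.bl (r - 1) y).eq_set K).inter hX
  have hD : ∀ K : Set (V d), MeasurableSet
      {ω : Om d | (Sph (off (opn p ω) U \ touch K) r y').Nonempty} := fun K => by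
    have := ((hO.sdiff (MES.const (touch K))).sph r y').inter_const_nonempty Set.univ
    simp only [Set.mem_univ, true_and] at this
    exact this
  have hDd : ∀ K : Set (V d), DependsOn (fun ω : Om d => ω ∈
      {ω : Om d | (Sph (off (opn p ω) U \ touch K) r y').Nonempty}) (tI K)ᶜ := fun K => by
    have h1 := dep_comp (dep_opn (d := d) p {e | e ∉ touch K ∧ ∀ x ∈ e, x ∉ U} (S := (tI K)ᶜ)
      (fun e he hc => he.1 (inl_mem_tI.1 hc))) (fun O => (Sph O r y').Nonempty)
    simp only [Set.mem_ofPred_eq, al_off_inter]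
    exact h1
  have hDle : ∀ K : Set (V d),
      Pr d {ω : Om d | (Sph (off (opn p ω) U \ touch K) r y').Nonempty} ≤ Gam d p r := fun K => by
    simp only [al_off_inter]
    exact le_iSup₂ (f := fun (F : Set (Sym2 (V d))) (y : V d) =>
      Pr d {ω : Om d | radGe (opn p ω ∩ F) r y}) {e | e ∉ touch K ∧ ∀ x ∈ e, x ∉ U} y'
  have hXle : Pr d {ω : Om d | (Sph (off (opn p ω) U) r y).Nonempty} ≤ Gam d p r := by
    simp only [al_off_inter']
    exact le_iSup₂ (f := fun (F : Set (Sym2 (V d))) (y : V d) =>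
      Pr d {ω : Om d | radGe (opn p ω ∩ F) r y}) {e | ∀ x ∈ e, x ∉ U} y
  have hsub : {ω : Om d | (Sph (off (opn p ω) U) r y).Nonempty ∧
      (Sph (off (opn p ω) U \ touch (Bl (off (opn p ω) U) (r - 1) y)) r y').Nonempty} ⊆
      ⋃ K : Finset (V d), ({ω : Om d | Bl (off (opn p ω) U) (r - 1) y = (K : Set (V d)) ∧
        (Sph (off (opn p ω) U) r y).Nonempty} ∩
        {ω : Om d | (Sph (off (opn p ω) U \ touch (K : Set (V d))) r y').Nonempty}) := by
    intro ω hω
    refine Set.mem_iUnion.2 ⟨(Bl_finite3 p ω U (r - 1) y).toFinset, ?_⟩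
    refine ⟨⟨by simp, hω.1⟩, ?_⟩
    have h2 := hω.2
    simpa using h2
  refine (measure_mono hsub).trans ?_
  refine (al_expl (Pr d) (X := {ω : Om d | (Sph (off (opn p ω) U) r y).Nonempty})
    (c := Gam d p r) (fun K => hA _) ?_ (fun K ω hω => hω.2) ?_).trans ?_
  · intro K K' hne
    rw [Function.onFun, Set.disjoint_left]
    intro ω h h'
    exact hne (Finset.coe_injective (h.1.symm.trans h'.1))
  · intro K
    rw [expl (K := (K : Set (V d))) (hA _) (hD _) (al_dep p U hr y _) (hDd _)]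
    gcongr
    exact hDle _
  · gcongr

end Pool.Agent.PB
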