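import Pool.Agent.PB.S3.Det122
import Pool.Agent.PB.S3.Alpha
import Pool.Agent.PB.T.Defs
import Pool.Agent.PB.P.Conv

/-!
# PB-S3-Beta: section 12.2, case (β): the two vertices are connected by short paths, by BK

`P(C(y) infinite off U, ∃ w, disjoint S1, S2 ⊆ O: RchL S1 r y w, RchL S2 r w y') ≤ 2 κ^{*3}(y'-y) P(0 → (bx m 0)ᶜ)` for every `m`.

PLAN. O = off (opn p ω) U ⊆ opn p ω. The cluster of y is infinite, so it contains c ∉ bx (m + 2r) y (boxes are finite). `attach122` with this c: v and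
disjoint P1, P2, P3, R ⊆ opn p ω; v ∈ bx (2r) y in both cases (`RchL.mem_bx` applied to RchL (opn p ω) r y v, resp. RchL r y w and RchL r w v, triangle inequality), so
c ∉ bx m v. Hence the event is contained in the union over w, v of
 dOcc of the 4 events {RchL (opn p) r y v}, {RchL r v w}, {RchL r w y'}, {∃ c ∉ bx m v, Rch (opn p) v c} and the same with y w, w v, v y'. Use `T10.dOcc_of_sets`
(make the sets finite first: `Rch.exists_finite`, and the analogous finite version for RchL, e.g. `RchL` has a finite witness: induction on n), and `bk_Pr`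
(measurability: Meas.lean; IsUp: `T10.isUp_opn`). P{RchL (opn p ω) r a b} = kap p r (b - a) (translation: `Pr_act (trI a)`; prove a lemma `kap_shift`),
P{∃ c ∉ bx m v, Rch v c} = P{∃ c ∉ bx m 0, Rch 0 c} (lemma `arm_shift`). Sum over w and v:
Σ_w Σ_v κ(v-y) κ(w-v) κ(y'-w) = cpow κ 3 (y'-y) (`cpow_three`, shifts of sums), the same for the second type (κ even: `kap_even`, or simply the sum of
κ(w-y) κ(v-w) κ(y'-v) has the same form with v and w exchanged: no evenness needed).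
-/

set_option autoImplicit false
open MeasureTheory Filter Topology
open scoped ENNReal BigOperators

namespace Pool.Agent.PB

variable {d : ℕ}

private theorem RchL_map3 {W W' : Type*} {O : Set (Sym2 W)} {O' : Set (Sym2 W')} (f : W → W')
    (h : ∀ a b, s(a, b) ∈ O → s(f a, f b) ∈ O') {n : ℕ} {x y : W} (hxy : RchL O n x y) :
    RchL O' n (f x) (f y) := by
  induction n generalizing y with
  | zero => exact congrArg f hxy
  | succ n ih =>
    rcases hxy with h1 | ⟨z, hz, hzy⟩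
    · exact Or.inl (ih h1)
    · exact Or.inr ⟨f z, ih hz, h _ _ hzy⟩

private theorem RchL_act3 {φ : V d ≃ V d} (hφ : IsAut φ) (p : ℝ) (ω : Om d) (n : ℕ) (x y : V d) :
    RchL (opn p (act φ ω)) n x y ↔ RchL (opn p ω) n (φ x) (φ y) := by
  constructor
  · exact RchL_map3 φ fun a b hab => (mem_opn_act hφ p ω a b).1 hab
  · intro h
    have := RchL_map3 (O' := opn p (act φ ω)) φ.symm (fun a b hab => by
      rw [mem_opn_act hφ]; simpa using hab) h
    simpa using this

private theorem RchL_fin3 {W : Type*} {O : Set (Sym2 W)} {n : ℕ} {x y : W} (h : RchL O n x y) :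
    ∃ S : Set (Sym2 W), S ⊆ O ∧ S.Finite ∧ RchL S n x y := by
  induction n generalizing y with
  | zero => exact ⟨∅, Set.empty_subset _, Set.finite_empty, h⟩
  | succ n ih =>
    rcases h with h1 | ⟨z, hz, hzy⟩
    · obtain ⟨S, h2, h3, h4⟩ := ih h1
      exact ⟨S, h2, h3, Or.inl h4⟩
    · obtain ⟨S, h2, h3, h4⟩ := ih hz
      exact ⟨insert s(z, y) S, Set.insert_subset hzy h2, h3.insert _,
        Or.inr ⟨z, h4.mono (Set.subset_insert _ _), Set.mem_insert _ _⟩⟩

theorem kap_shift (p : ℝ) (r : ℕ) (a b : V d) :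
    Pr d {ω : Om d | RchL (opn p ω) r a b} = kap p r (b - a) := by
  have h : {ω : Om d | RchL (opn p ω) r a b} =
      {ω | act (trI a) ω ∈ {ω : Om d | RchL (opn p ω) r 0 (b - a)}} := by
    ext ω
    show RchL (opn p ω) r a b ↔ RchL (opn p (act (trI a) ω)) r 0 (b - a)
    rw [RchL_act3 (trI_aut a), trI_apply, trI_apply, zero_add, sub_add_cancel]
  rw [h, Pr_act]
  rfl

theorem arm_shift (p : ℝ) (m : ℕ) (v : V d) :
    Pr d {ω : Om d | ∃ c, c ∉ bx m v ∧ Rch (opn p ω) v c} =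
      Pr d {ω : Om d | ∃ c, c ∉ bx m (0 : V d) ∧ Rch (opn p ω) 0 c} := by
  have hb : ∀ c : V d, c + v ∈ bx m v ↔ c ∈ bx m (0 : V d) := by
    intro c
    have : ∀ i, (c + v) i - v i = c i - (0 : V d) i := fun i => by simp
    simp only [bx, Set.mem_ofPred_eq, this]
  have h : {ω : Om d | ∃ c, c ∉ bx m v ∧ Rch (opn p ω) v c} =
      {ω | act (trI v) ω ∈ {ω : Om d | ∃ c, c ∉ bx m (0 : V d) ∧ Rch (opn p ω) 0 c}} := by
    ext ω
    show (∃ c, c ∉ bx m v ∧ Rch (opn p ω) v c) ↔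
      ∃ c, c ∉ bx m (0 : V d) ∧ Rch (opn p (act (trI v) ω)) 0 c
    constructor
    · rintro ⟨c, hc, hr⟩
      refine ⟨c - v, ?_, ?_⟩
      · rw [← hb, sub_add_cancel]; exact hc
      · rw [Rch_act (trI_aut v), trI_apply, trI_apply, zero_add, sub_add_cancel]; exact hr
    · rintro ⟨c, hc, hr⟩
      rw [Rch_act (trI_aut v), trI_apply, trI_apply, zero_add] at hr
      exact ⟨c + v, fun h => hc ((hb c).1 h), hr⟩
  rw [h, Pr_act]

private theorem sum3 (f : V d → ℝ≥0∞) (y y' : V d) :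
    ∑' v, ∑' w, f (v - y) * f (w - v) * f (y' - w) = cpow f 3 (y' - y) := by
  have h1 : ∀ v, ∑' w, f (v - y) * f (w - v) * f (y' - w) = f (v - y) * conv f f (y' - v) := by
    intro v
    rw [← conv_shift_left f f v y']
    unfold conv
    rw [← ENNReal.tsum_mul_left]
    exact tsum_congr fun w => mul_assoc _ _ _
  simp only [h1]
  rw [cpow_three, ← conv_shift_left f (conv f f) y y']
  rfl

/-- the four events -/
private def F4 (r m : ℕ) (a1 b1 a2 b2 a3 b3 v : V d) : Fin 4 → Set (Sym2 (V d)) → Prop :=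
  ![fun O => RchL O r a1 b1, fun O => RchL O r a2 b2, fun O => RchL O r a3 b3,
    fun O => ∃ c, c ∉ bx m v ∧ Rch O v c]

private theorem F4_mono (r m : ℕ) (a1 b1 a2 b2 a3 b3 v : V d) (j : Fin 4)
    (O O' : Set (Sym2 (V d))) (h : O ⊆ O') (hO : F4 r m a1 b1 a2 b2 a3 b3 v j O) :
    F4 r m a1 b1 a2 b2 a3 b3 v j O' := by
  fin_cases j
  · exact RchL.mono h hO
  · exact RchL.mono h hO
  · exact RchL.mono h hO
  · obtain ⟨c, hc, hr⟩ := hO
    exact ⟨c, hc, hr.mono h⟩

private theorem F4_bound (p : ℝ) (r m : ℕ) (a1 b1 a2 b2 a3 b3 v : V d) :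
    Pr d (dOcc (fun j => {ω : Om d | F4 r m a1 b1 a2 b2 a3 b3 v j (opn p ω)})) ≤
      kap p r (b1 - a1) * kap p r (b2 - a2) * kap p r (b3 - a3) *
        Pr d {ω : Om d | ∃ c, c ∉ bx m (0 : V d) ∧ Rch (opn p ω) 0 c} := by
  refine (bk_Pr ?_ ?_).trans ?_
  · intro j
    fin_cases j
    · exact (opn_MES (d := d) p).rchL r a1 b1
    · exact (opn_MES (d := d) p).rchL r a2 b2
    · exact (opn_MES (d := d) p).rchL r a3 b3
    · show MeasurableSet {ω : Om d | ∃ c, c ∉ bx m v ∧ Rch (opn p ω) v c}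
      have : {ω : Om d | ∃ c, c ∉ bx m v ∧ Rch (opn p ω) v c} =
          ⋃ c : V d, {ω : Om d | c ∉ bx m v ∧ Rch (opn p ω) v c} := by
        ext ω; simp
      rw [this]
      refine MeasurableSet.iUnion fun c => ?_
      have h2 : {ω : Om d | c ∉ bx m v ∧ Rch (opn p ω) v c} =
          {_ω : Om d | c ∉ bx m v} ∩ {ω | Rch (opn p ω) v c} := by
        ext ω; exact Iff.rfl
      rw [h2]
      exact (MeasurableSet.const _).inter ((opn_MES (d := d) p).rch v c)
  · intro j
    exact T10.isUp_opn fun O O' h hO => F4_mono r m a1 b1 a2 b2 a3 b3 v j O O' h hO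
  · rw [Fin.prod_univ_four, ← kap_shift, ← kap_shift, ← kap_shift, ← arm_shift p m v]
    exact le_rfl

private theorem F4_occ {p : ℝ} {ω : Om d} {r m : ℕ} {a1 b1 a2 b2 a3 b3 v c : V d}
    {P1 P2 P3 R : Set (Sym2 (V d))}
    (h1 : P1 ⊆ opn p ω) (h2 : P2 ⊆ opn p ω) (h3 : P3 ⊆ opn p ω) (h4 : R ⊆ opn p ω)
    (h12 : Disjoint P1 P2) (h13 : Disjoint P1 P3) (h14 : Disjoint P1 R) (h23 : Disjoint P2 P3)
    (h24 : Disjoint P2 R) (h34 : Disjoint P3 R) (e1 : RchL P1 r a1 b1) (e2 : RchL P2 r a2 b2)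
    (e3 : RchL P3 r a3 b3) (hc : c ∉ bx m v) (e4 : Rch R v c) :
    ω ∈ dOcc (fun j => {ω : Om d | F4 r m a1 b1 a2 b2 a3 b3 v j (opn p ω)}) := by
  obtain ⟨Q1, q1, f1, g1⟩ := RchL_fin3 e1
  obtain ⟨Q2, q2, f2, g2⟩ := RchL_fin3 e2
  obtain ⟨Q3, q3, f3, g3⟩ := RchL_fin3 e3
  obtain ⟨Q4, q4, f4, g4⟩ := e4.exists_finite
  have d12 := h12.mono q1 q2
  have d13 := h13.mono q1 q3
  have d14 := h14.mono q1 q4
  have d23 := h23.mono q2 q3
  have d24 := h24.mono q2 q4
  have d34 := h34.mono q3 q4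
  refine T10.dOcc_of_sets (F4_mono r m a1 b1 a2 b2 a3 b3 v) ![Q1, Q2, Q3, Q4] ?_ ?_ ?_ ?_
  · intro j
    fin_cases j
    · exact q1.trans h1
    · exact q2.trans h2
    · exact q3.trans h3
    · exact q4.trans h4
  · intro j
    fin_cases j
    · exact f1
    · exact f2
    · exact f3
    · exact f4
  · intro i j hij
    fin_cases i <;> fin_cases j
    · exact absurd rfl hij
    · exact d12
    · exact d13
    · exact d14
    · exact d12.symm
    · exact absurd rfl hij
    · exact d23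
    · exact d24
    · exact d13.symm
    · exact d23.symm
    · exact absurd rfl hij
    · exact d34
    · exact d14.symm
    · exact d24.symm
    · exact d34.symm
    · exact absurd rfl hij
  · intro j
    fin_cases j
    · exact g1
    · exact g2
    · exact g3
    · exact ⟨c, hc, g4⟩

theorem beta_bound (p : ℝ) (U : Set (V d)) (r m : ℕ) (y y' : V d) :
    Pr d {ω : Om d | (Cl (off (opn p ω) U) y).Infinite ∧
      ∃ (w : V d) (S1 S2 : Set (Sym2 (V d))), S1 ⊆ off (opn p ω) U ∧ S2 ⊆ off (opn p ω) U ∧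
        Disjoint S1 S2 ∧ RchL S1 r y w ∧ RchL S2 r w y'} ≤
      2 * cpow (kap p r) 3 (y' - y) *
        Pr d {ω : Om d | ∃ c, c ∉ bx m (0 : V d) ∧ Rch (opn p ω) 0 c} := by
  set Arm := Pr d {ω : Om d | ∃ c, c ∉ bx m (0 : V d) ∧ Rch (opn p ω) 0 c} with hArm
  have hsub : {ω : Om d | (Cl (off (opn p ω) U) y).Infinite ∧
      ∃ (w : V d) (S1 S2 : Set (Sym2 (V d))), S1 ⊆ off (opn p ω) U ∧ S2 ⊆ off (opn p ω) U ∧
        Disjoint S1 S2 ∧ RchL S1 r y w ∧ RchL S2 r w y'} ⊆
      (⋃ v : V d, ⋃ w : V d,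
        dOcc (fun j => {ω : Om d | F4 r m y v v w w y' v j (opn p ω)})) ∪
      (⋃ w : V d, ⋃ v : V d,
        dOcc (fun j => {ω : Om d | F4 r m y w w v v y' v j (opn p ω)})) := by
    rintro ω ⟨hinf, w, S1, S2, hS1, hS2, hd, e1, e2⟩
    obtain ⟨c, hc, hcb⟩ := (hinf.sdiff (bx_finite3 (m + (r + r)) y)).nonempty
    obtain ⟨v, P1, P2, P3, R, h1, h2, h3, h4, h12, h13, h14, h23, h24, h34, hR, hcase⟩ :=
      attach122 hS1 hS2 hd e1 e2 hc
    have ho := off_subset (opn p ω) U
    have hv : v ∈ bx (r + r) y := by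
      rcases hcase with ⟨g1, -, -⟩ | ⟨g1, g2, -⟩
      · exact RchL.mem_bx (RchL.mono_len (Nat.le_add_right r r) (g1.mono (h1.trans ho)))
      · exact RchL.mem_bx ((g1.mono (h1.trans ho)).trans (g2.mono (h2.trans ho)))
    have hcv : c ∉ bx m v := by
      intro hcv
      apply hcb
      intro i
      have a1 := hcv i
      have a2 := hv i
      have a3 : c i - y i = (c i - v i) + (v i - y i) := by ring
      rw [a3]
      refine (abs_add_le _ _).trans ?_
      push_cast at a1 a2 ⊢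
      exact add_le_add a1 a2
    rcases hcase with ⟨g1, g2, g3⟩ | ⟨g1, g2, g3⟩
    · left
      rw [Set.mem_iUnion]
      refine ⟨v, ?_⟩
      rw [Set.mem_iUnion]
      exact ⟨w, F4_occ (h1.trans ho) (h2.trans ho) (h3.trans ho) (h4.trans ho) h12 h13 h14 h23 h24
        h34 g1 g2 g3 hcv hR⟩
    · right
      rw [Set.mem_iUnion]
      refine ⟨w, ?_⟩
      rw [Set.mem_iUnion]
      exact ⟨v, F4_occ (h1.trans ho) (h2.trans ho) (h3.trans ho) (h4.trans ho) h12 h13 h14 h23 h24
        h34 g1 g2 g3 hcv hR⟩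
  have hU1 : Pr d (⋃ v : V d, ⋃ w : V d,
      dOcc (fun j => {ω : Om d | F4 r m y v v w w y' v j (opn p ω)})) ≤
      cpow (kap p r) 3 (y' - y) * Arm := by
    refine (measure_iUnion_le _).trans ?_
    rw [← sum3 (kap p r) y y', ← ENNReal.tsum_mul_right]
    refine ENNReal.tsum_le_tsum fun v => ?_
    refine (measure_iUnion_le _).trans ?_
    rw [← ENNReal.tsum_mul_right]
    exact ENNReal.tsum_le_tsum fun w => F4_bound p r m y v v w w y' v
  have hU2 : Pr d (⋃ w : V d, ⋃ v : V d,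
      dOcc (fun j => {ω : Om d | F4 r m y w w v v y' v j (opn p ω)})) ≤
      cpow (kap p r) 3 (y' - y) * Arm := by
    refine (measure_iUnion_le _).trans ?_
    rw [← sum3 (kap p r) y y', ← ENNReal.tsum_mul_right]
    refine ENNReal.tsum_le_tsum fun w => ?_
    refine (measure_iUnion_le _).trans ?_
    rw [← ENNReal.tsum_mul_right]
    exact ENNReal.tsum_le_tsum fun v => F4_bound p r m y w w v v y' v
  calc _ ≤ _ := measure_mono hsub
    _ ≤ _ := measure_union_le _ _
    _ ≤ _ := add_le_add hU1 hU2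
    _ = 2 * cpow (kap p r) 3 (y' - y) * Arm := by ring

end Pool.Agent.PB
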