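import Pool.Agent.PB.Russo
import Pool.Agent.PB.Crit
import Pool.Agent.PB.Meas
import Pool.Agent.PB.Link
import Pool.Agent.PB.P.Loc
import Pool.Agent.PB.P.Act
import Pool.Agent.PB.P.Expl
import Pool.Agent.PB.G.Base

/-!
# PROJECT PB, section 3 (Duminil-Copin and Tassion, also off a set `U`) and 12.1: definitions
(everything proved here)

* `Ex n U O y`: `y` is connected off `U` to a vertex outside the box `bx n 0`;
* `SS n U O`: the vertices of `bx n 0 \ U` not connected off `U` to the outside of the box;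
* `phiU p U S y = Σ_{z ∈ S, w ∉ S ∪ U} J(w-z) P(y ↔ z in S)`; `thU n U p y = P_p(Ex n U · y)`;
* `Lbx d n`: the finitely many lattice edges touching `bx n 0`.
-/

set_option autoImplicit false
open MeasureTheory Filter Topology
open scoped ENNReal BigOperators

namespace Pool.Agent.PB

variable {d : ℕ}

/-- boxes are finite -/
theorem bx_finite3 (n : ℕ) (x : V d) : (bx n x).Finite := by
  refine (Set.finite_Icc (fun i => x i - n) (fun i => x i + n)).subset ?_
  intro y hy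
  constructor
  · intro i
    have := abs_le.1 (hy i)
    show x i - n ≤ y i
    linarith [this.1]
  · intro i
    have := abs_le.1 (hy i)
    show y i ≤ x i + n
    linarith [this.2]

theorem bx_mono3 {n m : ℕ} (h : n ≤ m) (x : V d) : bx n x ⊆ bx m x := fun _ hy i =>
  (hy i).trans (by exact_mod_cast h)

theorem self_mem_bx3 (n : ℕ) (x : V d) : x ∈ bx n x := fun i => by simp

/-- the lattice edges touching the box `bx n 0` -/
noncomputable def Lbx (d n : ℕ) : Finset (Sym2 (V d)) := by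
  classical exact (((bx_finite3 n (0 : V d)).toFinset) ×ˢ U1 d).image (fun q => s(q.1, q.1 + q.2))

theorem mem_Lbx {n : ℕ} {e : Sym2 (V d)} :
    e ∈ Lbx d n ↔ e ∈ (lat d).edgeSet ∧ e ∈ touch (bx n (0 : V d)) := by
  classical
  unfold Lbx
  simp only [Finset.mem_image, Finset.mem_product, Set.Finite.mem_toFinset, Prod.exists]
  constructor
  · rintro ⟨a, b, ⟨ha, hb⟩, rfl⟩
    refine ⟨?_, mem_touch_left ha⟩
    rw [SimpleGraph.mem_edgeSet]
    show l1 (a + b - a) = 1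
    rw [add_sub_cancel_left]
    exact (mem_U1 b).1 hb
  · rintro ⟨he, x, hx, hxb⟩
    induction e using Sym2.ind with
    | _ a b =>
      have hab : l1 (b - a) = 1 := he
      rcases Sym2.mem_iff.1 hx with rfl | rfl
      · exact ⟨x, b - x, ⟨hxb, (mem_U1 _).2 hab⟩, by rw [add_sub_cancel]⟩
      · refine ⟨x, a - x, ⟨hxb, (mem_U1 _).2 ?_⟩, by rw [add_sub_cancel, Sym2.eq_swap]⟩
        rw [← neg_sub x a, l1_neg]; exact hab

/-- `y` is connected off `U` to a vertex outside the box -/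
def Ex (n : ℕ) (U : Set (V d)) (O : Set (Sym2 (V d))) (y : V d) : Prop :=
  ∃ z, z ∉ bx n (0 : V d) ∧ z ∈ ClA (Del.ofSet U) O y

theorem mem_clA_ofSet {W : Type*} {U : Set W} {O : Set (Sym2 W)} {y z : W} :
    z ∈ ClA (Del.ofSet U) O y ↔ y ∉ U ∧ Rch (off O U) y z := Iff.rfl

theorem Ex.mono {n : ℕ} {U : Set (V d)} {O O' : Set (Sym2 (V d))} (h : O ⊆ O') {y : V d}
    (hy : Ex n U O y) : Ex n U O' y := by
  obtain ⟨z, hz, hc⟩ := hy
  exact ⟨z, hz, ClA_mono _ h y hc⟩

/-- the random set of 3b -/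
def SS (n : ℕ) (U : Set (V d)) (O : Set (Sym2 (V d))) : Set (V d) :=
  {v | v ∈ bx n (0 : V d) ∧ v ∉ U ∧ ¬ Ex n U O v}

theorem SS_subset (n : ℕ) (U : Set (V d)) (O : Set (Sym2 (V d))) : SS n U O ⊆ bx n 0 :=
  fun _ h => h.1

theorem SS_finite (n : ℕ) (U : Set (V d)) (O : Set (Sym2 (V d))) : (SS n U O).Finite :=
  (bx_finite3 n 0).subset (SS_subset n U O)

/-- `φ^U_p(S; y)` -/
noncomputable def phiU (p : ℝ) (U : Set (V d)) (S : Finset (V d)) (y : V d) : ℝ≥0∞ := by
  classical exact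
    ∑' z : V d, ∑' w : V d, (if z ∈ S ∧ w ∉ S ∧ w ∉ U then
      (J p (w - z) * Pr d {ω | Rch (opn p ω ∩ ins (S : Set (V d))) y z}) else 0)

theorem phiU_empty (p : ℝ) (S : Finset (V d)) (y : V d) : phiU p ∅ S y = phi p S y := by
  classical
  unfold phiU phi
  simp

/-- `θ^U_{y,n}(p)` as a real number -/
noncomputable def thU (n : ℕ) (U : Set (V d)) (p : ℝ) (y : V d) : ℝ :=
  (Pr d {ω : Om d | Ex n U (opn p ω) y}).toReal

theorem measurableSet_Ex (n : ℕ) (U : Set (V d)) (p : ℝ) (y : V d) :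
    MeasurableSet {ω : Om d | Ex n U (opn p ω) y} := by
  have h := ((opn_MES (d := d) p).clA (Del.ofSet U) y).inter_const_nonempty {z | z ∉ bx n (0 : V d)}
  exact h

theorem SS_MVS (n : ℕ) (U : Set (V d)) (p : ℝ) : MVS (fun ω : Om d => SS n U (opn p ω)) := by
  intro v
  have : {ω : Om d | v ∈ SS n U (opn p ω)} =
      {_ω | v ∈ bx n (0 : V d) ∧ v ∉ U} ∩ {ω | Ex n U (opn p ω) v}ᶜ := by
    ext ω
    simp only [SS, Set.mem_ofPred_eq, Set.mem_inter_iff, Set.mem_compl_iff, and_assoc]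
  rw [this]
  exact (MeasurableSet.const _).inter (measurableSet_Ex n U p v).compl

theorem thU_nonneg (n : ℕ) (U : Set (V d)) (p : ℝ) (y : V d) : 0 ≤ thU n U p y :=
  ENNReal.toReal_nonneg

theorem thU_le_one (n : ℕ) (U : Set (V d)) (p : ℝ) (y : V d) : thU n U p y ≤ 1 := by
  have h : Pr d {ω : Om d | Ex n U (opn p ω) y} ≤ 1 := prob_le_one
  exact ENNReal.toReal_le_of_le_ofReal zero_le_one (by simpa using h)

theorem thU_mono (n : ℕ) (U : Set (V d)) (y : V d) {p q : ℝ} (h : p ≤ q) :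
    thU n U p y ≤ thU n U q y :=
  ENNReal.toReal_mono (measure_ne_top _ _) (measure_mono fun ω hω => Ex.mono (opn_mono h ω) hω)

/-- the last exit from `K` -/
theorem rch_exit {W : Type*} {O : Set (Sym2 W)} {K : Set W} {a b : W} (ha : a ∈ K) (hb : b ∉ K)
    (h : Rch O a b) : ∃ z w, z ∈ K ∧ w ∉ K ∧ s(z, w) ∈ O ∧ Rch (off O K) w b := by
  have key : b ∈ K ∨ ∃ z w, z ∈ K ∧ w ∉ K ∧ s(z, w) ∈ O ∧ Rch (off O K) w b := by
    refine Rch.induct (P := fun y => y ∈ K ∨ ∃ z w, z ∈ K ∧ w ∉ K ∧ s(z, w) ∈ O ∧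
      Rch (off O K) w y) (Or.inl ha) ?_ h
    intro y y' _ hyy hy
    by_cases hy' : y' ∈ K
    · exact Or.inl hy'
    · right
      by_cases hyK : y ∈ K
      · exact ⟨y, y', hyK, hy', hyy, Rch.refl _ _⟩
      · rcases hy with hy | ⟨z, w, h1, h2, h3, h4⟩
        · exact absurd hy hyK
        · exact ⟨z, w, h1, h2, h3, h4.tail (mk_mem_off.2 ⟨hyy, hyK, hy'⟩)⟩
  exact key.resolve_left hb

theorem mem_ins {W : Type*} {S : Set W} {a b : W} : s(a, b) ∈ ins S ↔ a ∈ S ∧ b ∈ S := by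
  constructor
  · intro h
    exact ⟨h a (Sym2.mem_mk_left a b), h b (Sym2.mem_mk_right a b)⟩
  · rintro ⟨ha, hb⟩ x hx
    rcases Sym2.mem_iff.1 hx with rfl | rfl
    · exact ha
    · exact hb

/-- a connection inside `S` stays in `S` -/
theorem rch_ins_mem {W : Type*} {O : Set (Sym2 W)} {S : Set W} {a b : W} (ha : a ∈ S)
    (h : Rch (O ∩ ins S) a b) : b ∈ S :=
  Rch.mem_of_closed S ha (fun _ _ _ hab => (mem_ins.1 hab.2).2) h

theorem J_eq_of {p : ℝ} {x : V d} (h : l1 x = 1) : J p x = ENNReal.ofReal p := by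
  classical
  unfold J; rw [if_pos h]

theorem J_eq_zero {p : ℝ} {x : V d} (h : l1 x ≠ 1) : J p x = 0 := by
  classical
  unfold J; rw [if_neg h]

end Pool.Agent.PB
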