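import Pool.Agent.PB.G.SplitL

/-!
# PB-S3-Det122: section 12.2, deterministic part

`O` any edge set, `K = Bl O (r-1) y`, `r ≥ 1`, `O'' = O \ touch K`.
`det122`: if the cluster of `y'` in `O` is infinite and the balls of `O` are finite, then EITHER `Sph O'' r y'` is nonempty, OR there are `w` and
disjoint sets `S1, S2 ⊆ O` with `RchL S1 r y w` and `RchL S2 r w y'`.
`sph_nonempty`: infinite cluster, finite balls: every sphere is nonempty.
`attach122`: in the second case, for `c` in the cluster of `y`, an attachment point `v` on one of the two connections.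

PLANS. `sph_nonempty`: if Sph O r y = ∅ then Bl O (r-1) y (r ≥ 1) is closed under O: a ∈ Bl (r-1), s(a,b) ∈ O, then b ∈ Bl r; if b ∉ Bl (r-1) then b ∈ Sph r (mono_len). So
Cl O y = Bl O (r-1) y is finite; r = 0: y ∈ Sph O 0 y.
`det122`: suppose Sph O'' r y' = ∅. Then Cl O'' y' = Bl O'' (r-1) y' ⊆ Bl O (r-1) y' is finite, so Cl O y' ⊄ Cl O'' y': `Rch.exists_cross`: a ∈ Cl O'' y',
b ∉ Cl O'' y', s(a,b) ∈ O, hence s(a,b) ∈ touch K: a ∈ K or b ∈ K. w := a. RchL O'' (r-1) y' a, so (symm, mono_len) RchL O'' r a y'. RchL (O ∩ touch K) r y a: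
lemma (R): a ∈ Bl O (r-1) y → RchL (O ∩ touch K) (r-1) y a (induction on the length j ≤ r-1: all vertices of the connection are in K), and if b ∈ K one more
edge s(b,a) ∈ touch K. S1 = O ∩ touch K, S2 = O''.
`attach122`: `attachL` with k = 2, q = ![(y,w),(w,y')], n = ![r,r], S = ![S1,S2], j0 = 0; fin_cases j; lengths by `RchL.mono_len`.
-/

set_option autoImplicit false

namespace Pool.Agent.PB

variable {W : Type*}

private theorem det122_cl {O : Set (Sym2 W)} {y : W} {k : ℕ} (h : ¬ (Sph O (k + 1) y).Nonempty) :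
    Cl O y ⊆ Bl O k y := by
  intro z hz
  refine Rch.mem_of_closed (Bl O k y) (RchL.refl O k y) ?_ hz
  intro a ha b hab
  by_contra hb
  refine h ⟨b, Or.inr ⟨a, ha, hab⟩, fun m hm hmb => hb ?_⟩
  exact RchL.mono_len (Nat.lt_succ_iff.1 hm) hmb

theorem sph_nonempty {O : Set (Sym2 W)} {y : W} (hfin : ∀ n, (Bl O n y).Finite)
    (hinf : (Cl O y).Infinite) (r : ℕ) : (Sph O r y).Nonempty := by
  rcases r with _ | k
  · exact ⟨y, rfl, fun m hm => absurd hm (Nat.not_lt_zero m)⟩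
  · by_contra h
    exact hinf ((hfin k).subset (det122_cl h))

private theorem det122_R {O : Set (Sym2 W)} {y a : W} {k j : ℕ} (hj : j ≤ k)
    (h : RchL O j y a) : RchL (O ∩ touch (Bl O k y)) j y a := by
  induction j generalizing a with
  | zero => exact h
  | succ j ih =>
    rcases h with h | ⟨z, hz, hza⟩
    · exact Or.inl (ih (Nat.le_of_succ_le hj) h)
    · refine Or.inr ⟨z, ih (Nat.le_of_succ_le hj) hz, hza, z, Sym2.mem_mk_left z a, ?_⟩
      exact RchL.mono_len (Nat.le_of_succ_le hj) hz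

theorem det122 {O : Set (Sym2 W)} {y y' : W} {r : ℕ} (hr : 1 ≤ r)
    (hfin : ∀ n, (Bl O n y').Finite) (hinf : (Cl O y').Infinite) :
    (Sph (O \ touch (Bl O (r - 1) y)) r y').Nonempty ∨
    ∃ (w : W) (S1 S2 : Set (Sym2 W)), S1 ⊆ O ∧ S2 ⊆ O ∧ Disjoint S1 S2 ∧
      RchL S1 r y w ∧ RchL S2 r w y' := by
  obtain ⟨k, rfl⟩ : ∃ k, r = k + 1 := ⟨r - 1, by omega⟩
  rw [Nat.add_sub_cancel]
  by_cases hne : (Sph (O \ touch (Bl O k y)) (k + 1) y').Nonempty
  · exact Or.inl hne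
  right
  have hsub : (O \ touch (Bl O k y)) ⊆ O := Set.sdiff_subset
  have hcl := det122_cl hne
  have hfin' : (Cl (O \ touch (Bl O k y)) y').Finite := by
    refine (hfin k).subset (hcl.trans ?_)
    intro z hz
    exact RchL.mono hsub hz
  obtain ⟨b0, hb0, hb0'⟩ : ∃ b0, b0 ∈ Cl O y' ∧ b0 ∉ Cl (O \ touch (Bl O k y)) y' := by
    by_contra hcon
    push Not at hcon
    exact hinf (hfin'.subset hcon)
  obtain ⟨a, b, ha, hb, hab, -⟩ := Rch.exists_cross (Cl (O \ touch (Bl O k y)) y')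
    (self_mem_Cl _ _) hb0' hb0
  have htouch : s(a, b) ∈ touch (Bl O k y) := by
    by_contra hcon
    exact hb (Cl_closed ha ⟨hab, hcon⟩)
  have h2 : RchL (O \ touch (Bl O k y)) (k + 1) a y' :=
    RchL.mono_len (Nat.le_succ k) (RchL.symm (hcl ha))
  have h1 : RchL (O ∩ touch (Bl O k y)) (k + 1) y a := by
    by_cases haK : a ∈ Bl O k y
    · exact Or.inl (det122_R le_rfl haK)
    · have hbK : b ∈ Bl O k y := by
        obtain ⟨x, hx, hxK⟩ := htouch
        rcases Sym2.mem_iff.1 hx with rfl | rfl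
        · exact absurd hxK haK
        · exact hxK
      refine Or.inr ⟨b, det122_R le_rfl hbK, ?_⟩
      rw [Sym2.eq_swap]
      exact ⟨hab, htouch⟩
  refine ⟨a, O ∩ touch (Bl O k y), O \ touch (Bl O k y), Set.inter_subset_left, hsub, ?_, h1, h2⟩
  exact Set.disjoint_left.2 fun e he he' => he'.2 he.2

theorem attach122 {O : Set (Sym2 W)} {y y' w c : W} {r : ℕ} {S1 S2 : Set (Sym2 W)} (h1 : S1 ⊆ O)
    (h2 : S2 ⊆ O) (h12 : Disjoint S1 S2) (hy : RchL S1 r y w) (hy' : RchL S2 r w y')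
    (hc : Rch O y c) :
    ∃ (v : W) (P1 P2 P3 R : Set (Sym2 W)), P1 ⊆ O ∧ P2 ⊆ O ∧ P3 ⊆ O ∧ R ⊆ O ∧
      Disjoint P1 P2 ∧ Disjoint P1 P3 ∧ Disjoint P1 R ∧ Disjoint P2 P3 ∧ Disjoint P2 R ∧
      Disjoint P3 R ∧ Rch R v c ∧
      ((RchL P1 r y v ∧ RchL P2 r v w ∧ RchL P3 r w y') ∨
        (RchL P1 r y w ∧ RchL P2 r w v ∧ RchL P3 r v y')) := by
  obtain ⟨j, z, P, Q, R, n1, n2, hP, hQ, hR, hPQ, hRP, hRQ, hn, e1, e2, e3, e4⟩ :=
    attachL (O := O) (k := 2) (q := ![(y, w), (w, y')]) (n := ![r, r]) (S := ![S1, S2])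
      (by
        intro j
        fin_cases j
        · exact h1
        · exact h2)
      (by
        intro i j hij
        fin_cases i <;> fin_cases j
        · exact absurd rfl hij
        · exact h12
        · exact h12.symm
        · exact absurd rfl hij)
      (by
        intro j
        fin_cases j
        · exact hy
        · exact hy') 0 (c := c) hc
  have hP0 : P 0 ⊆ S1 := hP 0
  have hP1 : P 1 ⊆ S2 := hP 1
  fin_cases j
  · have hQ' : Q ⊆ S1 := hQ
    have hn' : n1 + n2 ≤ r := hn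
    have e1' : RchL (P 0) n1 y z := e1
    have e2' : RchL Q n2 z w := e2
    have e3' : RchL (P 1) r w y' := e3 1 (by decide)
    refine ⟨z, P 0, Q, P 1, R, hP0.trans h1, hQ'.trans h1, hP1.trans h2, hR, hPQ,
      h12.mono hP0 hP1, (hRP 0).symm, h12.mono hQ' hP1, hRQ.symm, (hRP 1).symm, e4, Or.inl ⟨?_, ?_, e3'⟩⟩
    · exact RchL.mono_len (by omega) e1'
    · exact RchL.mono_len (by omega) e2'
  · have hQ' : Q ⊆ S2 := hQ
    have hn' : n1 + n2 ≤ r := hn
    have e1' : RchL (P 1) n1 w z := e1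
    have e2' : RchL Q n2 z y' := e2
    have e3' : RchL (P 0) r y w := e3 0 (by decide)
    refine ⟨z, P 0, P 1, Q, R, hP0.trans h1, hP1.trans h2, hQ'.trans h2, hR,
      h12.mono hP0 hP1, h12.mono hP0 hQ', (hRP 0).symm, hPQ, (hRP 1).symm, hRQ.symm, e4,
      Or.inr ⟨e3', ?_, ?_⟩⟩
    · exact RchL.mono_len (by omega) e1'
    · exact RchL.mono_len (by omega) e2'

end Pool.Agent.PB
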