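import Pool.Agent.PB.S3.Defs

/-!
# PB-S3-Exit: the exit inequality (used for the renewal inequality and for 12.1)

For `S ⊆ T`, `S` finite, `a ∈ S`, `b ∉ S`:
`P(a ↔ b in T) ≤ Σ_{z ∈ S, w ∈ T \ S} P(a ↔ z in S) J(w-z) P(w ↔ b in T)`.

PLAN (exploration of the cluster of `a` inside `S`). O = opn p ω, C ω = Cl (O ∩ ins S) a ⊆ S (`rch_ins_mem`).
(1) If Rch (O ∩ ins T) a b and C ω = K (K ⊆ S finite, a ∈ K, b ∉ K since b ∉ S): `rch_exit` for K gives z ∈ K, w ∉ K, s(z,w) ∈ O ∩ ins T,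
Rch (off (O ∩ ins T) K) w b. Then w ∈ T (mem_ins), and w ∉ S (otherwise s(z,w) ∈ O ∩ ins S, so w ∈ K); l1 (w - z) = 1 (mem_opn).
(2) For fixed K ⊆ S, z ∈ K, w ∈ T \ S with l1 (w - z) = 1 the three events E1 = {C ω = K}, E2 = {s(z,w) ∈ opn p ω},
E3 = {Rch (off (opn p ω ∩ ins T) K) w b} are independent: E1 depends on Sum.inl '' (ins S ∩ touch K), E2 on {Sum.inl s(z,w)}
(`dep_mem_opn`; s(z,w) is not in ins S as w ∉ S), E3 on Sum.inl '' (touch K)ᶜ; pairwise disjoint (`Pr_inter_dep` twice, `dep_inter`,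
`DependsOn.mono`). For E1: Cl (O ∩ ins S) a = K ↔ Cl (O ∩ ins S ∩ touch K) a = K (`Cl_eq_iff_touch`), use `dep_opn` with the set of edges
ins S ∩ touch K and `dep_comp`. For E3: off (O ∩ ins T) K = off ((O ∩ (touch K)ᶜ) ∩ ins T) K (mem_off), again `dep_opn`, `dep_comp`.
Measurability: Meas.lean (opn_MES, MES.inter, MES.const, MES.cl, MVS.eq_set, MES.rch; `off` is `Del.rem`: MES.rem).
P(E2) = ofReal (min p 1) ≤ ofReal p = J p (w - z) (`Pr_edge`, `J_eq_of`), P(E3) ≤ P(Rch (O ∩ ins T) w b) (off_subset).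
(3) Union bound: P ≤ Σ_K Σ_z Σ_w [K ⊆ S, z ∈ K, w ∈ T\S, adjacent] P(E1) J P(E3) (`measure_iUnion_le`; countable unions over
K : Finset (V d), z, w), interchange the sums (ENNReal.tsum_comm) and Σ_{K} [z ∈ K] P(C = K) = P(z ∈ C) (disjoint events, ≤ is enough:
`tsum_measure_le_measure_univ` style, or measure_iUnion with disjointness; C ω is always finite), which is P(Rch (O ∩ ins S) a z);
for z ∉ S the left side vanishes (K ⊆ S).
-/

set_option autoImplicit false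
open MeasureTheory Filter Topology
open scoped ENNReal BigOperators

namespace Pool.Agent.PB

variable {d : ℕ}

private theorem exit_dep1 (p : ℝ) (S K : Set (V d)) (a : V d) :
    DependsOn (fun ω : Om d => ω ∈ {ω : Om d | Cl (opn p ω ∩ ins S) a = K})
      (Sum.inl '' (ins S ∩ touch K)) := by
  have h := dep_comp (dep_opn (d := d) p (ins S ∩ touch K) (S := Sum.inl '' (ins S ∩ touch K))
    fun e he => ⟨e, he, rfl⟩) (fun O => Cl O a = K)
  refine fun ω ω' hω => ?_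
  have h1 := h hω
  simp only [eq_iff_iff] at h1 ⊢
  simp only [Set.mem_ofPred_eq]
  rw [Cl_eq_iff_touch, Cl_eq_iff_touch (O := opn p ω' ∩ ins S), Set.inter_assoc, Set.inter_assoc]
  exact h1

private theorem exit_dep3 (p : ℝ) (T K : Set (V d)) (w b : V d) :
    DependsOn (fun ω : Om d => ω ∈ {ω : Om d | Rch (off (opn p ω ∩ ins T) K) w b})
      (Sum.inl '' (touch K)ᶜ) := by
  have h := dep_comp (dep_opn (d := d) p (touch K)ᶜ (S := Sum.inl '' (touch K)ᶜ)
    fun e he => ⟨e, he, rfl⟩) (fun O => Rch (O ∩ ins T) w b)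
  have h2 : ∀ O : Set (Sym2 (V d)), off (O ∩ ins T) K = O ∩ (touch K)ᶜ ∩ ins T := by
    intro O
    have h3 : off (O ∩ ins T) K = (O ∩ ins T) \ touch K := rem_ofSet
    rw [h3]
    ext e
    simp only [Set.mem_sdiff, Set.mem_inter_iff, Set.mem_compl_iff]
    tauto
  refine fun ω ω' hω => ?_
  have h1 := h hω
  simp only [eq_iff_iff] at h1 ⊢
  simp only [Set.mem_ofPred_eq]
  rw [h2, h2]
  exact h1

private theorem exit_term (p : ℝ) (S T K : Set (V d)) {a b z w : V d} (hz : z ∈ K)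
    (hw : w ∉ S) (hadj : l1 (w - z) = 1) :
    Pr d ({ω : Om d | Cl (opn p ω ∩ ins S) a = K} ∩
      ({ω | s(z, w) ∈ opn p ω} ∩ {ω | Rch (off (opn p ω ∩ ins T) K) w b})) ≤
      J p (w - z) * (Pr d {ω : Om d | Cl (opn p ω ∩ ins S) a = K} *
        Pr d {ω : Om d | Rch (opn p ω ∩ ins T) w b}) := by
  have hm : MES (fun ω : Om d => opn p ω ∩ ins S) := (opn_MES p).inter (MES.const _)
  have hmT : MES (fun ω : Om d => opn p ω ∩ ins T) := (opn_MES p).inter (MES.const _)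
  have m1 : MeasurableSet {ω : Om d | Cl (opn p ω ∩ ins S) a = K} := (hm.cl a).eq_set K
  have m3 : MeasurableSet {ω : Om d | Rch (off (opn p ω ∩ ins T) K) w b} :=
    (hmT.rem (Del.ofSet K)).rch w b
  have he : s(z, w) ∈ (lat d).edgeSet := by
    rw [SimpleGraph.mem_edgeSet]
    exact hadj
  have hin : s(z, w) ∉ ins S := fun h => hw (mem_ins.1 h).2
  have htc : s(z, w) ∈ touch K := mem_touch_left hz
  have e1 : ({ω : Om d | Cl (opn p ω ∩ ins S) a = K} ∩
      ({ω | s(z, w) ∈ opn p ω} ∩ {ω | Rch (off (opn p ω ∩ ins T) K) w b})) =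
      {ω | s(z, w) ∈ opn p ω} ∩ ({ω : Om d | Cl (opn p ω ∩ ins S) a = K} ∩
        {ω | Rch (off (opn p ω ∩ ins T) K) w b}) := by
    rw [← Set.inter_assoc, ← Set.inter_assoc, Set.inter_comm {ω : Om d | s(z, w) ∈ opn p ω}]
  have e2 : Pr d ({ω | s(z, w) ∈ opn p ω} ∩ ({ω : Om d | Cl (opn p ω ∩ ins S) a = K} ∩
        {ω | Rch (off (opn p ω ∩ ins T) K) w b})) =
      Pr d {ω | s(z, w) ∈ opn p ω} * Pr d ({ω : Om d | Cl (opn p ω ∩ ins S) a = K} ∩
        {ω | Rch (off (opn p ω ∩ ins T) K) w b}) := by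
    refine Pr_inter_dep (S := {Sum.inl s(z, w)}) (T := {Sum.inl s(z, w)}ᶜ) disjoint_compl_right
      (opn_MES p _) (m1.inter m3) (dep_mem_opn p _)
      (dep_inter ((exit_dep1 p S K a).mono ?_) ((exit_dep3 p T K w b).mono ?_))
    · rintro i ⟨e, he1, rfl⟩ hi
      have h1 : e = s(z, w) := Sum.inl_injective hi
      rw [h1] at he1
      exact hin he1.1
    · rintro i ⟨e, he1, rfl⟩ hi
      have h1 : e = s(z, w) := Sum.inl_injective hi
      rw [h1] at he1
      exact he1 htc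
  have e3 : Pr d ({ω : Om d | Cl (opn p ω ∩ ins S) a = K} ∩
        {ω | Rch (off (opn p ω ∩ ins T) K) w b}) =
      Pr d {ω : Om d | Cl (opn p ω ∩ ins S) a = K} *
        Pr d {ω : Om d | Rch (off (opn p ω ∩ ins T) K) w b} := by
    refine Pr_inter_dep ?_ m1 m3 (exit_dep1 p S K a) (exit_dep3 p T K w b)
    rw [Set.disjoint_left]
    rintro i ⟨e, he1, rfl⟩ ⟨f, hf, hfe⟩
    have h1 : f = e := Sum.inl_injective hfe
    rw [h1] at hf
    exact hf he1.2
  rw [e1, e2, e3, Pr_edge p he, J_eq_of hadj]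
  refine mul_le_mul' (ENNReal.ofReal_le_ofReal (min_le_left _ _)) (mul_le_mul' le_rfl ?_)
  exact measure_mono fun ω hω => Rch.mono (off_subset _ _) hω

private theorem exit_step (p : ℝ) (S : Finset (V d)) (T : Set (V d))
    (hST : (S : Set (V d)) ⊆ T) {a b : V d} (ha : a ∈ S) (hb : b ∉ S) (K : Finset (V d)) :
    Pr d ({ω : Om d | Cl (opn p ω ∩ ins (S : Set (V d))) a = (K : Set (V d))} ∩
      {ω | Rch (opn p ω ∩ ins T) a b}) ≤
      ∑' z : V d, ∑' w : V d, (Set.indicator {q : V d × V d | q.1 ∈ K ∧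
        (q.1 ∈ S ∧ q.2 ∉ S ∧ q.2 ∈ T)}
        (fun q => J p (q.2 - q.1) *
          (Pr d {ω : Om d | Cl (opn p ω ∩ ins (S : Set (V d))) a = (K : Set (V d))} *
          Pr d {ω : Om d | Rch (opn p ω ∩ ins T) q.2 b})) (z, w)) := by
  classical
  let E : V d → V d → Set (Om d) := fun z w =>
    if (z ∈ K ∧ (z ∈ S ∧ w ∉ S ∧ w ∈ T)) ∧ l1 (w - z) = 1 then
      ({ω : Om d | Cl (opn p ω ∩ ins (S : Set (V d))) a = (K : Set (V d))} ∩
      ({ω | s(z, w) ∈ opn p ω} ∩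
        {ω | Rch (off (opn p ω ∩ ins T) (K : Set (V d))) w b})) else ∅
  have hsub : ({ω : Om d | Cl (opn p ω ∩ ins (S : Set (V d))) a = (K : Set (V d))} ∩
      {ω | Rch (opn p ω ∩ ins T) a b}) ⊆ ⋃ z : V d, ⋃ w : V d, E z w := by
    rintro ω ⟨h1, h2⟩
    have h1' : Cl (opn p ω ∩ ins (S : Set (V d))) a = (K : Set (V d)) := h1
    have h2' : Rch (opn p ω ∩ ins T) a b := h2
    have hKS : ∀ y ∈ K, y ∈ S := by
      intro y hy
      have h3 : y ∈ Cl (opn p ω ∩ ins (S : Set (V d))) a := by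
        rw [h1']
        exact hy
      exact rch_ins_mem (S := (S : Set (V d))) ha h3
    have haK : a ∈ (K : Set (V d)) := by
      rw [← h1']
      exact self_mem_Cl _ _
    have hbK : b ∉ (K : Set (V d)) := fun h => hb (hKS b h)
    obtain ⟨z, w, hz, hw, hzw, hr⟩ := rch_exit haK hbK h2'
    have hzS : z ∈ S := hKS z hz
    have hwT : w ∈ T := (mem_ins.1 hzw.2).2
    have hwS : w ∉ S := by
      intro h
      apply hw
      rw [← h1'] at hz ⊢
      exact Cl_closed hz ⟨hzw.1, mem_ins.2 ⟨hzS, h⟩⟩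
    have hadj : l1 (w - z) = 1 := hzw.1.1
    refine Set.mem_iUnion.2 ⟨z, Set.mem_iUnion.2 ⟨w, ?_⟩⟩
    have hE : E z w = ({ω : Om d | Cl (opn p ω ∩ ins (S : Set (V d))) a = (K : Set (V d))} ∩
      ({ω | s(z, w) ∈ opn p ω} ∩
        {ω | Rch (off (opn p ω ∩ ins T) (K : Set (V d))) w b})) :=
      if_pos ⟨⟨hz, hzS, hwS, hwT⟩, hadj⟩
    rw [hE]
    exact ⟨h1, hzw.1, hr⟩
  refine (measure_mono hsub).trans ((measure_iUnion_le _).trans ?_)
  refine ENNReal.tsum_le_tsum fun z => (measure_iUnion_le _).trans ?_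
  refine ENNReal.tsum_le_tsum fun w => ?_
  by_cases hc : z ∈ K ∧ (z ∈ S ∧ w ∉ S ∧ w ∈ T)
  · rw [Set.indicator_of_mem (show (z, w) ∈ {q : V d × V d | q.1 ∈ K ∧
        (q.1 ∈ S ∧ q.2 ∉ S ∧ q.2 ∈ T)} from hc)]
    by_cases hl : l1 (w - z) = 1
    · have hE : E z w = ({ω : Om d | Cl (opn p ω ∩ ins (S : Set (V d))) a = (K : Set (V d))} ∩
      ({ω | s(z, w) ∈ opn p ω} ∩
        {ω | Rch (off (opn p ω ∩ ins T) (K : Set (V d))) w b})) := if_pos ⟨hc, hl⟩
      rw [hE]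
      exact exit_term p (S : Set (V d)) T (K : Set (V d)) hc.1 hc.2.2.1 hl
    · have hE : E z w = ∅ := if_neg fun h => hl h.2
      rw [hE, measure_empty]
      exact zero_le
  · have hE : E z w = ∅ := if_neg fun h => hc h.1
    rw [hE, measure_empty]
    exact zero_le

theorem exit_bound (p : ℝ) (S : Finset (V d)) (T : Set (V d)) (hST : (S : Set (V d)) ⊆ T)
    {a b : V d} (ha : a ∈ S) (hb : b ∉ S) :
    Pr d {ω | Rch (opn p ω ∩ ins T) a b} ≤
      ∑' z : V d, ∑' w : V d, (Set.indicator {q : V d × V d | q.1 ∈ S ∧ q.2 ∉ S ∧ q.2 ∈ T}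
        (fun q => J p (q.2 - q.1) * (Pr d {ω | Rch (opn p ω ∩ ins (S : Set (V d))) a q.1} *
          Pr d {ω | Rch (opn p ω ∩ ins T) q.2 b})) (z, w)) := by
  classical
  have hCm : MVS (fun ω : Om d => Cl (opn p ω ∩ ins (S : Set (V d))) a) :=
    ((opn_MES p).inter (MES.const _)).cl a
  have h0 : Pr d {ω : Om d | (Cl (opn p ω ∩ ins (S : Set (V d))) a).Infinite} = 0 := by
    have h1 : {ω : Om d | (Cl (opn p ω ∩ ins (S : Set (V d))) a).Infinite} = ∅ :=
      Set.eq_empty_of_forall_notMem fun ω h => h ((S.finite_toSet).subset fun y hy =>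
        rch_ins_mem (S := (S : Set (V d))) ha hy)
    rw [h1, measure_empty]
  have hAm : MeasurableSet {ω : Om d | Rch (opn p ω ∩ ins T) a b} :=
    ((opn_MES p).inter (MES.const _)).rch a b
  rw [Pr_split_fin hCm h0 hAm]
  refine (ENNReal.tsum_le_tsum fun K => exit_step p S T hST ha hb K).trans ?_
  rw [ENNReal.tsum_comm]
  refine ENNReal.tsum_le_tsum fun z => ?_
  rw [ENNReal.tsum_comm]
  refine ENNReal.tsum_le_tsum fun w => ?_
  by_cases hc : z ∈ S ∧ w ∉ S ∧ w ∈ T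
  · rw [Set.indicator_of_mem (show (z, w) ∈ {q : V d × V d | q.1 ∈ S ∧ q.2 ∉ S ∧ q.2 ∈ T}
      from hc)]
    have hzm : MeasurableSet {ω : Om d | Rch (opn p ω ∩ ins (S : Set (V d))) a z} :=
      ((opn_MES p).inter (MES.const _)).rch a z
    have h1 : Pr d {ω : Om d | Rch (opn p ω ∩ ins (S : Set (V d))) a z} =
        ∑' K : Finset (V d), (if z ∈ K then
          Pr d {ω : Om d | Cl (opn p ω ∩ ins (S : Set (V d))) a = (K : Set (V d))} else 0) := by
      rw [Pr_split_fin hCm h0 hzm]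
      refine tsum_congr fun K => ?_
      by_cases hzK : z ∈ K
      · rw [if_pos hzK]
        congr 1
        ext ω
        simp only [Set.mem_inter_iff, Set.mem_ofPred_eq, and_iff_left_iff_imp]
        intro h
        have h2 : z ∈ Cl (opn p ω ∩ ins (S : Set (V d))) a := by
          rw [h]
          exact hzK
        exact h2
      · rw [if_neg hzK]
        have h2 : ({ω : Om d | Cl (opn p ω ∩ ins (S : Set (V d))) a = (K : Set (V d))} ∩
            {ω : Om d | Rch (opn p ω ∩ ins (S : Set (V d))) a z}) = ∅ := by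
          refine Set.eq_empty_of_forall_notMem ?_
          rintro ω ⟨h3, h4⟩
          have h3' : Cl (opn p ω ∩ ins (S : Set (V d))) a = (K : Set (V d)) := h3
          have h5 : z ∈ Cl (opn p ω ∩ ins (S : Set (V d))) a := h4
          rw [h3'] at h5
          exact hzK h5
        rw [h2, measure_empty]
    show _ ≤ J p (w - z) * (Pr d {ω : Om d | Rch (opn p ω ∩ ins (S : Set (V d))) a z} *
      Pr d {ω : Om d | Rch (opn p ω ∩ ins T) w b})
    rw [h1, ← ENNReal.tsum_mul_right, ← ENNReal.tsum_mul_left]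
    refine ENNReal.tsum_le_tsum fun K => ?_
    by_cases hzK : z ∈ K
    · rw [Set.indicator_of_mem (show (z, w) ∈ {q : V d × V d | q.1 ∈ K ∧
        (q.1 ∈ S ∧ q.2 ∉ S ∧ q.2 ∈ T)} from ⟨hzK, hc⟩), if_pos hzK]
    · rw [Set.indicator_of_notMem (show (z, w) ∉ {q : V d × V d | q.1 ∈ K ∧
        (q.1 ∈ S ∧ q.2 ∉ S ∧ q.2 ∈ T)} from fun h => hzK h.1)]
      exact zero_le
  · rw [Set.indicator_of_notMem (show (z, w) ∉ {q : V d × V d | q.1 ∈ S ∧ q.2 ∉ S ∧ q.2 ∈ T}
      from hc)]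
    refine le_of_eq ?_
    rw [ENNReal.tsum_eq_zero]
    intro K
    exact Set.indicator_of_notMem (show (z, w) ∉ {q : V d × V d | q.1 ∈ K ∧
        (q.1 ∈ S ∧ q.2 ∉ S ∧ q.2 ∈ T)} from fun h => hc h.2) _

end Pool.Agent.PB
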