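import Pool.Agent.PB.Defs
import Pool.Agent.PB.P.Conv

/-!
# PB-S3-Sum: iteration of a renewal inequality with a submultiplicative weight (pure `ℝ≥0∞` sums)

PLAN. (1) Σ_x W x * conv u v x ≤ (Σ W u)(Σ W v): W x ≤ W y * W (x - y) (hW with y + (x - y) = x), `ENNReal.tsum_comm`,
shift of the inner sum (`Equiv.subRight y` / tsum_mul_sub style), ENNReal.tsum_mul_left/right.
(2) f ≤ Σ_{k<N} conv (cpow a k) g + conv (cpow a N) f pointwise, by induction on N (conv_mono, conv_add, conv_assoc;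
cpow a (k+1) = conv a (cpow a k); conv_comm to put a on the right place).
(3) conv (cpow a N) f x ≤ nrm (cpow a N) * 1 ≤ (nrm a)^N (`nrm_cpow`), tends to 0 (`ENNReal.tendsto_pow_atTop_nhds_zero_of_lt_one`).
So f x ≤ Σ'_k conv (cpow a k) g x (le_of_tendsto' / `ENNReal.le_of_forall_pos_le_add`, sum over range N ≤ tsum).
(4) Σ_x W x * conv (cpow a k) g x ≤ (Σ W a)^k * Σ W g by induction on k using (1) (k = 0: `dlt_conv`).
(5) Σ_x W f ≤ Σ_k α^k G = (1-α)⁻¹ G < ⊤ (ENNReal.tsum_geometric, ENNReal.tsum_comm, tsum_mul_right).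
-/

set_option autoImplicit false
open MeasureTheory Filter Topology
open scoped ENNReal BigOperators

namespace Pool.Agent.PB

variable {d : ℕ}


theorem renewal_aux_conv {W : V d → ℝ≥0∞} (hW : ∀ x y, W (x + y) ≤ W x * W y)
    (u v : V d → ℝ≥0∞) :
    ∑' x, W x * conv u v x ≤ (∑' x, W x * u x) * ∑' x, W x * v x := by
  have h1 : ∀ x, W x * conv u v x ≤ conv (fun y => W y * u y) (fun y => W y * v y) x := by
    intro x
    unfold conv
    rw [← ENNReal.tsum_mul_left]
    refine ENNReal.tsum_le_tsum fun y => ?_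
    have h2 : W x ≤ W y * W (x - y) := by
      have := hW y (x - y)
      rwa [add_sub_cancel] at this
    calc W x * (u y * v (x - y)) ≤ (W y * W (x - y)) * (u y * v (x - y)) :=
          mul_le_mul' h2 le_rfl
      _ = W y * u y * (W (x - y) * v (x - y)) := by ring
  calc ∑' x, W x * conv u v x ≤ nrm (conv (fun y => W y * u y) (fun y => W y * v y)) :=
        ENNReal.tsum_le_tsum h1
    _ = (∑' x, W x * u x) * ∑' x, W x * v x := nrm_conv _ _

theorem renewal_aux_iter {f a g : V d → ℝ≥0∞} (hren : ∀ x, f x ≤ g x + conv a f x) (N : ℕ)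
    (x : V d) : f x ≤ ∑ k ∈ Finset.range N, conv (cpow a k) g x + conv (cpow a N) f x := by
  induction N with
  | zero => simp [dlt_conv]
  | succ N ih =>
    refine ih.trans ?_
    rw [Finset.sum_range_succ, add_assoc]
    refine add_le_add le_rfl ?_
    calc conv (cpow a N) f x ≤ conv (cpow a N) (fun y => g y + conv a f y) x :=
          conv_mono (fun _ => le_rfl) hren x
      _ = conv (cpow a N) g x + conv (cpow a N) (conv a f) x := by rw [conv_add_right]
      _ = conv (cpow a N) g x + conv (cpow a (N + 1)) f x := by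
          rw [← conv_assoc, ← cpow_succ']

theorem renewal_aux_le {f a g : V d → ℝ≥0∞} (hf : ∀ x, f x ≤ 1)
    (hren : ∀ x, f x ≤ g x + conv a f x) (ha : nrm a < 1) (x : V d) :
    f x ≤ ∑' k : ℕ, conv (cpow a k) g x := by
  have h1 : ∀ N : ℕ, f x ≤ ∑' k : ℕ, conv (cpow a k) g x + nrm a ^ N := by
    intro N
    refine (renewal_aux_iter hren N x).trans (add_le_add (ENNReal.sum_le_tsum _) ?_)
    calc conv (cpow a N) f x ≤ nrm (cpow a N) * supn f := conv_le_nrm_mul_supn _ _ x
      _ ≤ nrm (cpow a N) * 1 := mul_le_mul' le_rfl (supn_le hf)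
      _ = nrm a ^ N := by rw [mul_one, nrm_cpow]
  have h2 : Tendsto (fun N : ℕ => ∑' k : ℕ, conv (cpow a k) g x + nrm a ^ N) atTop
      (𝓝 (∑' k : ℕ, conv (cpow a k) g x + 0)) :=
    tendsto_const_nhds.add (ENNReal.tendsto_pow_atTop_nhds_zero_of_lt_one ha)
  rw [add_zero] at h2
  exact ge_of_tendsto' h2 h1

theorem renewal_aux_pow {a g W : V d → ℝ≥0∞} (hW : ∀ x y, W (x + y) ≤ W x * W y) (k : ℕ) :
    ∑' x, W x * conv (cpow a k) g x ≤ (∑' x, W x * a x) ^ k * ∑' x, W x * g x := by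
  induction k with
  | zero => simp [dlt_conv]
  | succ k ih =>
    rw [cpow_succ, conv_assoc, pow_succ']
    refine (renewal_aux_conv hW a (conv (cpow a k) g)).trans ?_
    rw [mul_assoc]
    exact mul_le_mul' le_rfl ih

theorem renewal_sum {f a g W : V d → ℝ≥0∞} (hf : ∀ x, f x ≤ 1)
    (hW : ∀ x y, W (x + y) ≤ W x * W y) (hren : ∀ x, f x ≤ g x + conv a f x)
    (ha : nrm a < 1) (haW : ∑' x, W x * a x < 1) (hg : ∑' x, W x * g x < ⊤) :
    ∑' x, W x * f x < ⊤ := by
  have h1 : ∑' x, W x * f x ≤ ∑' k : ℕ, (∑' x, W x * a x) ^ k * ∑' x, W x * g x := by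
    calc ∑' x, W x * f x ≤ ∑' x, W x * ∑' k : ℕ, conv (cpow a k) g x :=
          ENNReal.tsum_le_tsum fun x => mul_le_mul' le_rfl (renewal_aux_le hf hren ha x)
      _ = ∑' x, ∑' k : ℕ, W x * conv (cpow a k) g x :=
          tsum_congr fun x => ENNReal.tsum_mul_left.symm
      _ = ∑' k : ℕ, ∑' x, W x * conv (cpow a k) g x := ENNReal.tsum_comm
      _ ≤ _ := ENNReal.tsum_le_tsum fun k => renewal_aux_pow hW k
  refine h1.trans_lt ?_
  rw [ENNReal.tsum_mul_right, ENNReal.tsum_geometric]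
  refine ENNReal.mul_lt_top ?_ hg
  rw [ENNReal.inv_lt_top]
  exact tsub_pos_of_lt haW

end Pool.Agent.PB
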