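import Pool.Agent.PB.S3.Ren
import Pool.Agent.PB.S3.Sum

/-!
# PB-S3-Exp (3a): `φ_p(S) < 1` for some finite `S ∋ 0` implies an exponential moment of `τ_p`

PLANS. `exp_moment`: a = aS p S, nrm a = phi p S 0 < 1 (`nrm_aS`), support of a finite (`aS_support`). W x = ofReal (exp (m l1 x)):
submultiplicative since l1 (x+y) ≤ l1 x + l1 y (m > 0). Choose ℓ with l1 x ≤ ℓ on the support of a; Σ W a ≤ ofReal (exp (m ℓ)) * nrm a; choose m > 0
small so that this is < 1 (if nrm a = 0 any m works; continuity of exp at 0, or explicit: exp (m ℓ) < 1/(nrm a).toReal).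
g = indicator of S: Σ W g is a finite sum of finite terms. `renewal_sum` with f = tau p (`tau_le_one`, `tau_renewal`).
`chi_lt_of_phi`: W ≥ 1. `mom_lt_of_phi`: n2 x ≤ (l1 x)^2 ≤ (2/m^2) exp (m l1 x) (t^2/2 ≤ exp t for t ≥ 0: Real.quadratic_le_exp_of_nonneg or
`Real.add_one_le_exp` twice), so Σ tauw ≤ C Σ W tau. n2 x = Σ (natAbs)^2, l1 x = Σ |x i| : sum of squares ≤ square of the sum
(Finset.sum_sq_le_sq_sum style / `Finset.sum_pow_le_pow_sum`..).
`theta_zero_of_chi`: if θ(p) = P(Cl infinite) > 0 then ∫⁻ encard = ⊤; but Σ_x P(x ∈ Cl) = ∫⁻ Σ_x 1{x ∈ Cl} (lintegral_tsum,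
measurability from Meas.lean), which is ≥ n P(Cl infinite) for every n. Alternatively `MeasureTheory.measure_limsup_cofinite_eq_zero` (Borel-Cantelli):
Σ_x P(x ∈ Cl) < ∞ implies that a.s. only finitely many x are in Cl: `measure_setOf_frequently_eq_zero` / `ae_finite_setOf_mem`
(`MeasureTheory.ae_finite_setOf_mem : ∑' i, μ (s i) ≠ ∞ → ∀ᵐ x, {i | x ∈ s i}.Finite`).
-/

set_option autoImplicit false
open MeasureTheory Filter Topology
open scoped ENNReal BigOperators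

namespace Pool.Agent.PB

variable {d : ℕ}

private theorem ex_l1_add (x y : V d) : l1 (x + y) ≤ l1 x + l1 y := by
  unfold l1
  rw [← Finset.sum_add_distrib]
  exact Finset.sum_le_sum fun i _ => abs_add_le _ _

private theorem ex_l1_nonneg (x : V d) : 0 ≤ l1 x := Finset.sum_nonneg fun _ _ => abs_nonneg _

theorem exp_moment {p : ℝ} {S : Finset (V d)} (h0 : (0 : V d) ∈ S) (h : phi p S 0 < 1) :
    ∃ m : ℝ, 0 < m ∧
      ∑' x : V d, ENNReal.ofReal (Real.exp (m * (l1 x : ℝ))) * tau p x < ⊤ := by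
  have hnrm : nrm (aS p S) < 1 := by rw [nrm_aS]; exact h
  set α : ℝ := (nrm (aS p S)).toReal with hα
  have hαlt : α < 1 := by
    have := (ENNReal.toReal_lt_toReal hnrm.ne_top ENNReal.one_ne_top).2 hnrm
    simpa using this
  have hα0 : 0 ≤ α := ENNReal.toReal_nonneg
  have hαe : nrm (aS p S) = ENNReal.ofReal α := (ENNReal.ofReal_toReal hnrm.ne_top).symm
  set F : Finset (V d) := (aS_support p S).toFinset with hF
  set ℓ : ℝ := ∑ x ∈ F, (l1 x : ℝ) with hℓ
  have hl1 : ∀ x : V d, (0 : ℝ) ≤ (l1 x : ℝ) := fun x => by exact_mod_cast ex_l1_nonneg x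
  have hℓ0 : 0 ≤ ℓ := Finset.sum_nonneg fun x _ => hl1 x
  have hℓle : ∀ x, aS p S x ≠ 0 → (l1 x : ℝ) ≤ ℓ := by
    intro x hx
    refine Finset.single_le_sum (f := fun x : V d => (l1 x : ℝ)) (fun y _ => hl1 y) ?_
    rw [hF, Set.Finite.mem_toFinset]
    exact hx
  set β : ℝ := (1 + α) / 2 with hβ
  have hβ0 : 0 < β := by rw [hβ]; linarith
  have hβ1 : β < 1 := by rw [hβ]; linarith
  have hαβ : α < β := by rw [hβ]; linarith
  have hlog : 0 < Real.log (1 / β) := Real.log_pos (by rw [lt_div_iff₀ hβ0]; linarith)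
  set m : ℝ := Real.log (1 / β) / (ℓ + 1) with hm
  have hm0 : 0 < m := div_pos hlog (by linarith)
  have hmℓ : m * ℓ ≤ Real.log (1 / β) := by
    rw [hm, div_mul_eq_mul_div, div_le_iff₀ (by linarith)]
    nlinarith
  have hexp : Real.exp (m * ℓ) * α < 1 := by
    have h1 : Real.exp (m * ℓ) ≤ 1 / β := by
      rw [← Real.exp_log (show 0 < 1 / β by positivity)]
      exact Real.exp_le_exp.2 hmℓ
    calc Real.exp (m * ℓ) * α ≤ 1 / β * α := mul_le_mul_of_nonneg_right h1 hα0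
      _ < 1 := by rw [div_mul_eq_mul_div, one_mul, div_lt_one hβ0]; exact hαβ
  refine ⟨m, hm0, ?_⟩
  refine renewal_sum (a := aS p S) (g := Set.indicator (S : Set (V d)) 1)
    (fun x => tau_le_one p x) ?_ (tau_renewal p h0) hnrm ?_ ?_
  · intro x y
    rw [← ENNReal.ofReal_mul (Real.exp_nonneg _), ← Real.exp_add]
    refine ENNReal.ofReal_le_ofReal (Real.exp_le_exp.2 ?_)
    rw [← mul_add]
    refine mul_le_mul_of_nonneg_left ?_ hm0.le
    exact_mod_cast ex_l1_add x y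
  · calc ∑' x, ENNReal.ofReal (Real.exp (m * (l1 x : ℝ))) * aS p S x
        ≤ ∑' x, ENNReal.ofReal (Real.exp (m * ℓ)) * aS p S x := by
          refine ENNReal.tsum_le_tsum fun x => ?_
          by_cases hx : aS p S x = 0
          · rw [hx, mul_zero, mul_zero]
          · refine mul_le_mul_left ?_ _
            exact ENNReal.ofReal_le_ofReal
              (Real.exp_le_exp.2 (mul_le_mul_of_nonneg_left (hℓle x hx) hm0.le))
      _ = ENNReal.ofReal (Real.exp (m * ℓ)) * nrm (aS p S) := ENNReal.tsum_mul_left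
      _ = ENNReal.ofReal (Real.exp (m * ℓ) * α) := by
          rw [hαe, ← ENNReal.ofReal_mul (Real.exp_nonneg _)]
      _ < 1 := ENNReal.ofReal_lt_one.2 hexp
  · rw [tsum_eq_sum (s := S)]
    · refine ENNReal.sum_lt_top.2 fun x hx => ?_
      rw [Set.indicator_of_mem (by exact_mod_cast hx)]
      simp
    · intro x hx
      rw [Set.indicator_of_notMem (by exact_mod_cast hx), mul_zero]

theorem chi_lt_of_phi {p : ℝ} {S : Finset (V d)} (h0 : (0 : V d) ∈ S) (h : phi p S 0 < 1) :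
    chi d p < ⊤ := by
  obtain ⟨m, hm, hlt⟩ := exp_moment h0 h
  refine lt_of_le_of_lt ?_ hlt
  unfold chi
  refine ENNReal.tsum_le_tsum fun x => ?_
  have h1 : (1 : ℝ≥0∞) ≤ ENNReal.ofReal (Real.exp (m * (l1 x : ℝ))) := by
    rw [← ENNReal.ofReal_one]
    refine ENNReal.ofReal_le_ofReal (Real.one_le_exp ?_)
    have : (0 : ℝ) ≤ (l1 x : ℝ) := by exact_mod_cast ex_l1_nonneg x
    positivity
  calc tau p x = 1 * tau p x := (one_mul _).symm
    _ ≤ _ := mul_le_mul_left h1 _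

private theorem ex_n2 (x : V d) : ((n2 x : ℕ) : ℝ) ≤ (l1 x : ℝ) ^ 2 := by
  unfold n2 l1
  push_cast
  have h : ∀ i, ((x i).natAbs : ℝ) = |(x i : ℝ)| := fun i => by
    rw [Nat.cast_natAbs]; push_cast; rfl
  simp only [h]
  rw [sq, Finset.sum_mul_sum]
  refine Finset.sum_le_sum fun i _ => ?_
  rw [sq]
  exact Finset.single_le_sum (f := fun j => |(x i : ℝ)| * |(x j : ℝ)|)
    (fun j _ => by positivity) (Finset.mem_univ i)

theorem mom_lt_of_phi {p : ℝ} {S : Finset (V d)} (h0 : (0 : V d) ∈ S) (h : phi p S 0 < 1) :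
    ∑' x : V d, tauw p x < ⊤ := by
  obtain ⟨m, hm, hlt⟩ := exp_moment h0 h
  have key : ∀ x : V d, tauw p x ≤ ENNReal.ofReal (2 / m ^ 2) *
      (ENNReal.ofReal (Real.exp (m * (l1 x : ℝ))) * tau p x) := by
    intro x
    unfold tauw
    rw [← mul_assoc]
    refine mul_le_mul_left ?_ _
    rw [← ENNReal.ofReal_mul (by positivity), ← ENNReal.ofReal_natCast]
    refine ENNReal.ofReal_le_ofReal ?_
    have h1 : (0 : ℝ) ≤ (l1 x : ℝ) := by exact_mod_cast ex_l1_nonneg x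
    have h2 := Real.quadratic_le_exp_of_nonneg (show 0 ≤ m * (l1 x : ℝ) by positivity)
    have h3 : (m * (l1 x : ℝ)) ^ 2 / 2 ≤ Real.exp (m * (l1 x : ℝ)) := by
      have : 0 ≤ m * (l1 x : ℝ) := by positivity
      linarith
    calc ((n2 x : ℕ) : ℝ) ≤ (l1 x : ℝ) ^ 2 := ex_n2 x
      _ = 2 / m ^ 2 * ((m * (l1 x : ℝ)) ^ 2 / 2) := by field_simp
      _ ≤ 2 / m ^ 2 * Real.exp (m * (l1 x : ℝ)) := mul_le_mul_of_nonneg_left h3 (by positivity)
  calc ∑' x : V d, tauw p x ≤ ∑' x : V d, ENNReal.ofReal (2 / m ^ 2) *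
        (ENNReal.ofReal (Real.exp (m * (l1 x : ℝ))) * tau p x) := ENNReal.tsum_le_tsum key
    _ = ENNReal.ofReal (2 / m ^ 2) *
        ∑' x : V d, ENNReal.ofReal (Real.exp (m * (l1 x : ℝ))) * tau p x := ENNReal.tsum_mul_left
    _ < ⊤ := ENNReal.mul_lt_top ENNReal.ofReal_lt_top hlt

theorem theta_zero_of_chi {p : ℝ} (h : chi d p < ⊤) : theta d p = 0 := by
  have h1 : ∑' x : V d, Pr d {ω | Rch (opn p ω) 0 x} ≠ ⊤ := h.ne
  have h2 := ae_finite_setOfPred_mem h1
  unfold theta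
  rw [ae_iff] at h2
  exact h2

end Pool.Agent.PB
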