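import Pool.Agent.PB.S3.Defs

/-!
# PB-S3-Fin: deterministic facts about `Ex n U O y` and `SS n U O` (any `O`)
-/

set_option autoImplicit false
open scoped BigOperators

namespace Pool.Agent.PB

variable {d : ℕ}

private theorem sf_notMem {U : Set (V d)} {O : Set (Sym2 (V d))} {v x : V d} (hv : v ∉ U)
    (h : Rch (off O U) v x) : x ∉ U := by
  refine Rch.mem_of_closed (O := off O U) Uᶜ hv ?_ h
  intro a _ b hab
  exact (mk_mem_off.1 hab).2.2

private theorem sf_Ex {n : ℕ} {U : Set (V d)} {O : Set (Sym2 (V d))} {y : V d} :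
    Ex n U O y ↔ y ∉ U ∧ ∃ z, z ∉ bx n (0 : V d) ∧ Rch (off O U) y z := by
  constructor
  · rintro ⟨z, hz, hy, hr⟩
    exact ⟨hy, z, hz, hr⟩
  · rintro ⟨hy, z, hz, hr⟩
    exact ⟨z, hz, hy, hr⟩

private theorem sf_Ex_of_rch {n : ℕ} {U : Set (V d)} {O : Set (Sym2 (V d))} {v x : V d}
    (hv : v ∉ U) (h : Rch (off O U) v x) (hx : Ex n U O x) : Ex n U O v := by
  rw [sf_Ex] at hx ⊢
  obtain ⟨_, z, hz, hr⟩ := hx
  exact ⟨hv, z, hz, h.trans hr⟩

private theorem sf_off_touch {B U : Set (V d)} {O : Set (Sym2 (V d))} {e : Sym2 (V d)}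
    (he : e ∈ off O U) (hB : e ∈ touch B) : e ∈ off (O ∩ touch B) U :=
  mem_off.2 ⟨⟨(mem_off.1 he).1, hB⟩, (mem_off.1 he).2⟩

private theorem sf_ins_touch {B : Set (V d)} {e : Sym2 (V d)} (h : ∀ z ∈ e, z ∈ B) :
    e ∈ touch B := by
  induction e using Sym2.ind with
  | _ a b => exact mem_touch_left (h a (Sym2.mem_mk_left a b))

private theorem sf_off_ins {S : Set (V d)} {O : Set (Sym2 (V d))} {e : Sym2 (V d)}
    (he : e ∈ off O S) : e ∉ ins S := by
  intro h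
  induction e using Sym2.ind with
  | _ a b => exact (mem_off.1 he).2 a (Sym2.mem_mk_left a b) (h a (Sym2.mem_mk_left a b))

theorem Ex_touch {n : ℕ} {U : Set (V d)} {O : Set (Sym2 (V d))} {y : V d} :
    Ex n U O y ↔ Ex n U (O ∩ touch (bx n (0 : V d))) y := by
  constructor
  · intro h
    rw [sf_Ex] at h ⊢
    obtain ⟨hy, z, hz, hr⟩ := h
    refine ⟨hy, ?_⟩
    by_cases hyB : y ∈ bx n (0 : V d)
    · obtain ⟨a, b, ha, hb, hab, hya⟩ := Rch.exists_first_cross (bx n (0 : V d)) hyB hz hr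
      refine ⟨b, hb, (hya.mono ?_).tail (sf_off_touch hab (mem_touch_left ha))⟩
      intro e he
      exact sf_off_touch he.1 (sf_ins_touch he.2)
    · exact ⟨y, hyB, Rch.refl _ _⟩
  · exact Ex.mono Set.inter_subset_left

theorem SS_touch {n : ℕ} {U : Set (V d)} {O : Set (Sym2 (V d))} :
    SS n U (O ∩ touch (bx n (0 : V d))) = SS n U O := by
  ext v
  unfold SS
  simp only [Set.mem_ofPred_eq]
  rw [← Ex_touch]

theorem SS_eq_iff {n : ℕ} {U : Set (V d)} {O : Set (Sym2 (V d))} {S : Set (V d)} :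
    SS n U O = S ↔ SS n U (O \ ins S) = S := by
  constructor
  · intro hS
    ext v
    constructor
    · rintro ⟨hvB, hvU, hvE⟩
      by_contra hvS
      apply hvE
      have hE : Ex n U O v := by
        by_contra hE
        apply hvS
        rw [← hS]
        exact ⟨hvB, hvU, hE⟩
      rw [sf_Ex] at hE ⊢
      obtain ⟨_, z, hz, hr⟩ := hE
      refine ⟨hvU, z, hz, ?_⟩
      have hzS : z ∉ S := by
        intro hzS
        rw [← hS] at hzS
        exact hz hzS.1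
      have key : v ∉ S ∧ Rch (off (O \ ins S) U) z v := by
        refine Rch.induct (O := off O U) (x := z)
          (P := fun x => x ∉ S ∧ Rch (off (O \ ins S) U) z x) ⟨hzS, Rch.refl _ _⟩ ?_ hr.symm
        rintro x x' hzx hxx' ⟨hx, hrx⟩
        have hx' : x' ∉ S := by
          intro hx'
          rw [← hS] at hx'
          apply hx'.2.2
          rw [sf_Ex]
          exact ⟨hx'.2.1, z, hz, (hzx.tail hxx').symm⟩
        refine ⟨hx', hrx.tail ?_⟩
        have h1 := mk_mem_off.1 hxx'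
        exact mk_mem_off.2 ⟨⟨h1.1, fun h2 => hx (mem_ins.1 h2).1⟩, h1.2⟩
      exact key.2.symm
    · intro hvS
      have h1 : v ∈ SS n U O := by rw [hS]; exact hvS
      exact ⟨h1.1, h1.2.1, fun h2 => h1.2.2 (h2.mono Set.sdiff_subset)⟩
  · intro hS
    ext v
    constructor
    · rintro ⟨hvB, hvU, hvE⟩
      rw [← hS]
      exact ⟨hvB, hvU, fun h2 => hvE (h2.mono Set.sdiff_subset)⟩
    · intro hvS
      have h1 : v ∈ SS n U (O \ ins S) := by rw [hS]; exact hvS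
      refine ⟨h1.1, h1.2.1, ?_⟩
      intro hE
      rw [sf_Ex] at hE
      obtain ⟨_, z, hz, hr⟩ := hE
      have hzS : z ∉ S := by
        intro hzS
        rw [← hS] at hzS
        exact hz hzS.1
      obtain ⟨x, w, hx, hw, hxw, hwz⟩ := rch_exit hvS hzS hr
      have h2 : x ∈ SS n U (O \ ins S) := by rw [hS]; exact hx
      apply h2.2.2
      rw [sf_Ex]
      refine ⟨h2.2.1, z, hz, Rch.head ?_ (hwz.mono ?_)⟩
      · have h3 := mk_mem_off.1 hxw
        exact mk_mem_off.2 ⟨⟨h3.1, fun h4 => hw (mem_ins.1 h4).2⟩, h3.2⟩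
      · intro e he
        have h3 := mem_off.1 (mem_off.1 he).1
        exact mem_off.2 ⟨⟨h3.1, sf_off_ins he⟩, h3.2⟩

theorem SS_closed {n : ℕ} {U : Set (V d)} {O : Set (Sym2 (V d))} {z w : V d}
    (hz : z ∈ SS n U O) (hw : w ∉ U) (h : s(z, w) ∈ O) : w ∈ SS n U O := by
  obtain ⟨_, hzU, hzE⟩ := hz
  have he : Rch (off O U) z w := Rch.edge (mk_mem_off.2 ⟨h, hzU, hw⟩)
  refine ⟨?_, hw, ?_⟩
  · by_contra hwB
    apply hzE
    rw [sf_Ex]
    exact ⟨hzU, w, hwB, he⟩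
  · intro hwE
    exact hzE (sf_Ex_of_rch hzU he hwE)

theorem SS_rch {n : ℕ} {U : Set (V d)} {O : Set (Sym2 (V d))} {y z : V d}
    (hy : y ∈ SS n U O) : Rch (off O U) y z ↔ Rch (O ∩ ins (SS n U O)) y z := by
  constructor
  · intro h
    have key : z ∈ SS n U O ∧ Rch (O ∩ ins (SS n U O)) y z := by
      refine Rch.induct (O := off O U)
        (P := fun x => x ∈ SS n U O ∧ Rch (O ∩ ins (SS n U O)) y x) ⟨hy, Rch.refl _ _⟩ ?_ h
      rintro x x' _ hxx' ⟨hx, hr⟩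
      have h1 := mk_mem_off.1 hxx'
      have hx' := SS_closed hx h1.2.2 h1.1
      exact ⟨hx', hr.tail ⟨h1.1, mem_ins.2 ⟨hx, hx'⟩⟩⟩
    exact key.2
  · intro h
    refine h.mono ?_
    intro e he
    exact mem_off.2 ⟨he.1, fun x hx => (he.2 x hx).2.1⟩

theorem piv_iff {n : ℕ} {U : Set (V d)} {O : Set (Sym2 (V d))} {y : V d} {e : Sym2 (V d)}
    (he : e ∉ O) (hyn : y ∈ bx n (0 : V d)) (hyU : y ∉ U) :
    (Ex n U (insert e O) y ∧ ¬ Ex n U O y) ↔
      ∃ z w, e = s(z, w) ∧ y ∈ SS n U O ∧ z ∈ SS n U O ∧ w ∉ SS n U O ∧ w ∉ U ∧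
        Rch (O ∩ ins (SS n U O)) y z := by
  constructor
  · rintro ⟨h1, h2⟩
    have hyS : y ∈ SS n U O := ⟨hyn, hyU, h2⟩
    rw [sf_Ex] at h1
    obtain ⟨_, z0, hz0, hr⟩ := h1
    have hz0S : z0 ∉ SS n U O := fun h => hz0 h.1
    obtain ⟨a, b, ha, hb, hab, hya⟩ := Rch.exists_first_cross (SS n U O) hyS hz0S hr
    have h3 := mk_mem_off.1 hab
    have hab' : s(a, b) = e := by
      rcases h3.1 with h4 | h4
      · exact h4
      · exact absurd (SS_closed ha h3.2.2 h4) hb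
    refine ⟨a, b, hab'.symm, hyS, ha, hb, h3.2.2, hya.mono ?_⟩
    rintro f ⟨hf1, hf2⟩
    refine ⟨?_, hf2⟩
    rcases (mem_off.1 hf1).1 with h4 | h4
    · exfalso
      apply hb
      apply hf2 b
      rw [h4, ← hab']
      exact Sym2.mem_mk_right a b
    · exact h4
  · rintro ⟨z, w, rfl, hyS, hzS, hwS, hwU, hr⟩
    refine ⟨?_, hyS.2.2⟩
    have h1 : Rch (off (insert s(z, w) O) U) y z := by
      refine ((SS_rch hyS).2 hr).mono (off_mono (Set.subset_insert _ _) U)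
    have h2 : Rch (off (insert s(z, w) O) U) y w :=
      h1.tail (mk_mem_off.2 ⟨Set.mem_insert _ _, hzS.2.1, hwU⟩)
    by_cases hwB : w ∈ bx n (0 : V d)
    · have hwE : Ex n U O w := by
        by_contra hwE
        exact hwS ⟨hwB, hwU, hwE⟩
      exact sf_Ex_of_rch hyU h2 (hwE.mono (Set.subset_insert _ _))
    · rw [sf_Ex]
      exact ⟨hyU, w, hwB, h2⟩

end Pool.Agent.PB
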