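import Pool.Agent.PB.S3.Fin
import Pool.Agent.PB.Outs

/-!
# PB-S3-FinP: finite volume probabilities: dependence on finitely many labels, continuity, limit

PLANS. `Ex_opL`: opL (Lbx d n) p ω as a set = opn p ω ∩ touch (bx n 0) (`coe_opL`, `mem_Lbx`, opn ⊆ edgeSet); `Ex_touch`.
`thU_cont`: `Pr_opL_formula` with L = Lbx d n, A T = {ω | Ex n U T y} (constant events: measurable, DependsOn everything) on Icc 0 1, and the
right side is a polynomial (continuous; `Continuous.continuousOn.congr`).
`SS_indep`: {SS n U (opn p ω) = S} depends on the labels of the edges not in ins S (`SS_eq_iff`: SS n U O = S ↔ SS n U (O \ ins S) = S),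
{Rch (opn p ω ∩ ins S) y z} on those of ins S; `Pr_inter_dep`, `dep_opn`, `dep_comp`.
`SS_split`: decomposition of the probability over the values of SS (finite subsets of the box): for measurable events B S,
P(ω ∈ B (SS ω)) = Σ_S P(SS = S, B S); use `Pr_split_fin`-like `lintegral_split_fin` (SS is always finite, `SS_MVS`, `SS_finite`).
`thU_tendsto`: the events {Ex n U (opn p ω) y} decrease in n (bx_mono3) and their intersection is {ClA (ofSet U) (opn p ω) y infinite}: if the cluster is
infinite it is not contained in the finite set bx n 0; if it is finite it is contained in some box (a finite set of V d is bounded: choose n ≥ all |x i|).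
`tendsto_measure_iInter_atTop` (antitone, measurable: `measurableSet_Ex`), then toReal.
-/

set_option autoImplicit false
open MeasureTheory Filter Topology
open scoped ENNReal BigOperators

namespace Pool.Agent.PB

variable {d : ℕ}

private theorem coe_opL_touch (n : ℕ) (p : ℝ) (ω : Om d) :
    (opL (Lbx d n) p ω : Set (Sym2 (V d))) = opn p ω ∩ touch (bx n (0 : V d)) := by
  rw [coe_opL (fun e he => (mem_Lbx.1 he).1)]
  ext e
  constructor
  · rintro ⟨h1, h2⟩
    exact ⟨h1, (mem_Lbx.1 (Finset.mem_coe.1 h2)).2⟩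
  · rintro ⟨h1, h2⟩
    exact ⟨h1, Finset.mem_coe.2 (mem_Lbx.2 ⟨h1.1, h2⟩)⟩

theorem Ex_opL (n : ℕ) (U : Set (V d)) (p : ℝ) (ω : Om d) (y : V d) :
    Ex n U (opn p ω) y ↔ Ex n U (opL (Lbx d n) p ω : Set (Sym2 (V d))) y := by
  rw [coe_opL_touch]
  exact Ex_touch

theorem SS_opL (n : ℕ) (U : Set (V d)) (p : ℝ) (ω : Om d) :
    SS n U (opL (Lbx d n) p ω : Set (Sym2 (V d))) = SS n U (opn p ω) := by
  rw [coe_opL_touch]
  exact SS_touch

theorem thU_cont (n : ℕ) (U : Set (V d)) (y : V d) :
    ContinuousOn (fun p => thU n U p y) (Set.Icc 0 1) := by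
  classical
  have hcont : Continuous (fun p : ℝ => ∑ T ∈ (Lbx d n).powerset,
      (∏ e ∈ Lbx d n, if e ∈ T then p else 1 - p) *
        (Pr d {_ω : Om d | Ex n U (T : Set (Sym2 (V d))) y}).toReal) := by
    refine continuous_finsetSum _ fun T _ => ?_
    refine Continuous.mul ?_ continuous_const
    refine continuous_finsetProd _ fun e _ => ?_
    split_ifs
    · exact continuous_id
    · exact continuous_const.sub continuous_id
  refine hcont.continuousOn.congr ?_
  intro p hp
  have h := Pr_opL_formula (Lbx d n) (A := fun T => {_ω : Om d | Ex n U (T : Set (Sym2 (V d))) y})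
    (fun T _ => MeasurableSet.const _) (fun T _ => fun _ _ _ => rfl) hp.1 hp.2
  have hset : {ω : Om d | Ex n U (opn p ω) y} = {ω : Om d | ω ∈
      (fun T : Finset (Sym2 (V d)) => {_ω : Om d | Ex n U (T : Set (Sym2 (V d))) y})
        (opL (Lbx d n) p ω)} := Set.ext fun ω => Ex_opL n U p ω y
  change (Pr d {ω : Om d | Ex n U (opn p ω) y}).toReal = _
  rw [hset]
  exact h

/-- given `SS = S` the configuration inside `S` is fresh -/
theorem SS_indep (n : ℕ) (U : Set (V d)) (p : ℝ) (S : Set (V d)) (y z : V d) :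
    Pr d {ω : Om d | SS n U (opn p ω) = S ∧ Rch (opn p ω ∩ ins S) y z} =
      Pr d {ω : Om d | SS n U (opn p ω) = S} * Pr d {ω : Om d | Rch (opn p ω ∩ ins S) y z} := by
  have h0 : {ω : Om d | SS n U (opn p ω) = S ∧ Rch (opn p ω ∩ ins S) y z} =
      {ω : Om d | SS n U (opn p ω) = S} ∩ {ω : Om d | Rch (opn p ω ∩ ins S) y z} := rfl
  rw [h0]
  refine Pr_inter_dep (S := Sum.inl '' (ins S)ᶜ) (T := Sum.inl '' (ins S)) ?_
    ((SS_MVS n U p).eq_set S) (((opn_MES p).inter (MES.const (ins S))).rch y z) ?_ ?_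
  · rw [Set.disjoint_image_iff Sum.inl_injective]
    exact disjoint_compl_left
  · have h := dep_comp (dep_opn (d := d) p (ins S)ᶜ (S := Sum.inl '' (ins S)ᶜ)
      fun e he => ⟨e, he, rfl⟩) (fun O => SS n U O = S)
    intro ω ω' hω
    have h1 := h hω
    simp only [eq_iff_iff] at h1 ⊢
    change SS n U (opn p ω) = S ↔ SS n U (opn p ω') = S
    rw [SS_eq_iff, SS_eq_iff (O := opn p ω')]
    exact h1
  · exact dep_comp (dep_opn (d := d) p (ins S) (S := Sum.inl '' (ins S))
      fun e he => ⟨e, he, rfl⟩) (fun O => Rch O y z)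

/-- total probability for the values of `SS` -/
theorem SS_split (n : ℕ) (U : Set (V d)) (p : ℝ) {A : Set (Om d)} (hA : MeasurableSet A) :
    Pr d A = ∑' S : Finset (V d), Pr d ({ω : Om d | SS n U (opn p ω) = (S : Set (V d))} ∩ A) := by
  refine Pr_split_fin (SS_MVS n U p) ?_ hA
  have h : {ω : Om d | (SS n U (opn p ω)).Infinite} = ∅ := by
    ext ω
    simp only [Set.mem_ofPred_eq, Set.mem_empty_iff_false, iff_false, Set.not_infinite]
    exact SS_finite n U _
  rw [h, measure_empty]

private theorem exists_bx {F : Set (V d)} (hF : F.Finite) : ∃ n : ℕ, F ⊆ bx n (0 : V d) := by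
  refine ⟨hF.toFinset.sup (fun x => ∑ i, (x i).natAbs), ?_⟩
  intro x hx i
  have h1 : (x i).natAbs ≤ ∑ i, (x i).natAbs :=
    Finset.single_le_sum (f := fun i => (x i).natAbs) (fun _ _ => Nat.zero_le _)
      (Finset.mem_univ i)
  have h2 : ∑ i, (x i).natAbs ≤ hF.toFinset.sup (fun x : V d => ∑ i, (x i).natAbs) :=
    Finset.le_sup (f := fun x : V d => ∑ i, (x i).natAbs) (hF.mem_toFinset.2 hx)
  have h3 := h1.trans h2
  have h4 : ((x i).natAbs : ℤ) ≤
      ((hF.toFinset.sup (fun x : V d => ∑ i, (x i).natAbs) : ℕ) : ℤ) := by exact_mod_cast h3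
  rw [Int.natCast_natAbs] at h4
  rw [Pi.zero_apply, sub_zero]
  exact h4

theorem thU_tendsto (U : Set (V d)) (p : ℝ) (y : V d) :
    Tendsto (fun n => thU n U p y) atTop (𝓝 (thA p (Del.ofSet U) y).toReal) := by
  have hanti : Antitone (fun n : ℕ => {ω : Om d | Ex n U (opn p ω) y}) := by
    rintro n m hnm ω ⟨z, hz, hc⟩
    exact ⟨z, fun h => hz (bx_mono3 hnm 0 h), hc⟩
  have hU : ⋂ n : ℕ, {ω : Om d | Ex n U (opn p ω) y} =
      {ω : Om d | (ClA (Del.ofSet U) (opn p ω) y).Infinite} := by
    ext ω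
    simp only [Set.mem_iInter, Set.mem_ofPred_eq]
    constructor
    · intro h hfin
      obtain ⟨n, hn⟩ := exists_bx hfin
      obtain ⟨z, hz, hc⟩ := h n
      exact hz (hn hc)
    · intro h n
      by_contra hcon
      refine h ((bx_finite3 n (0 : V d)).subset ?_)
      intro z hz
      by_contra hzb
      exact hcon ⟨z, hzb, hz⟩
  have h1 := tendsto_measure_iInter_atTop (μ := Pr d)
    (fun n : ℕ => (measurableSet_Ex n U p y).nullMeasurableSet) hanti
    ⟨0, measure_ne_top _ _⟩
  rw [hU] at h1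
  exact (ENNReal.tendsto_toReal (measure_ne_top _ _)).comp h1

theorem thA_empty (p : ℝ) : thA p (Del.ofSet ∅) (0 : V d) = theta d p := by
  unfold thA theta
  congr 1
  ext ω
  have h : ClA (Del.ofSet ∅) (opn p ω) (0 : V d) = Cl (opn p ω) 0 := by
    ext z
    rw [mem_clA_ofSet]
    have h2 : off (opn p ω) (∅ : Set (V d)) = opn p ω := by
      ext e
      rw [mem_off]
      exact ⟨fun h => h.1, fun h => ⟨h, fun _ _ h => h⟩⟩
    rw [h2]
    exact ⟨fun h => h.2, fun h => ⟨fun h => h, h⟩⟩
  rw [Set.mem_ofPred_eq, Set.mem_ofPred_eq, h]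

end Pool.Agent.PB
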