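import Mathlib

/-!
# PB-S3-ODE: two elementary differential inequalities

PLANS. `ode_growth`: g(p) = exp p * (1 - F p) is antitone on [a,b]: `antitoneOn_of_deriv_nonpos` (convex Icc, continuous, derivative
exp p (1 - F p - D) ≤ 0 on the interior), so exp b (1 - F b) ≤ exp a (1 - F a) ≤ exp a.
`ode_121`: H(p) = c (G(p)/4 + (p - a) G(b)) - (p - a) is monotone on [a,b] (`monotoneOn_of_deriv_nonneg`): derivative
c (D/4 + G b) - 1 ≥ c (p(1-p) D + G p) - 1 ≥ 0 as D ≥ 0, p(1-p) ≤ 1/4, G p ≤ G b, c ≥ 0. H(b) ≥ H(a) = c G(a)/4 ≥ 0, i.e.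
b - a ≤ c (1/4 + (b-a)) G(b) ≤ (c/2) G(b) since b - a ≤ 1/4 and G b ≥ 0.
-/

set_option autoImplicit false
open Filter Topology

namespace Pool.Agent.PB

theorem ode_growth {F : ℝ → ℝ} {a b : ℝ} (hab : a ≤ b) (hc : ContinuousOn F (Set.Icc a b))
    (hF : ∀ p ∈ Set.Ioo a b, ∃ D : ℝ, HasDerivAt F D p ∧ 1 - F p ≤ D) (h0 : 0 ≤ F a) :
    1 - Real.exp (-(b - a)) ≤ F b := by
  set g : ℝ → ℝ := fun p => Real.exp p * (1 - F p) with hg
  have hder : ∀ p ∈ Set.Ioo a b, ∃ D : ℝ, HasDerivAt g (Real.exp p * (1 - F p) + Real.exp p * (-D)) p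
      ∧ 1 - F p ≤ D := by
    intro p hp
    obtain ⟨D, hD, hD1⟩ := hF p hp
    refine ⟨D, ?_, hD1⟩
    have h1 : HasDerivAt (fun q => 1 - F q) (-D) p := by
      simpa using hD.const_sub 1
    exact (Real.hasDerivAt_exp p).mul h1
  have hanti : AntitoneOn g (Set.Icc a b) := by
    apply antitoneOn_of_deriv_nonpos (convex_Icc a b)
    · exact (Real.continuous_exp.continuousOn).mul (continuousOn_const.sub hc)
    · rw [interior_Icc]
      intro p hp
      obtain ⟨D, hD, -⟩ := hder p hp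
      exact hD.differentiableAt.differentiableWithinAt
    · rw [interior_Icc]
      intro p hp
      obtain ⟨D, hD, hD1⟩ := hder p hp
      rw [hD.deriv]
      have := Real.exp_pos p
      nlinarith
  have h1 := hanti (Set.left_mem_Icc.mpr hab) (Set.right_mem_Icc.mpr hab) hab
  simp only [hg] at h1
  have ha := Real.exp_pos a
  have hb := Real.exp_pos b
  have h2 : Real.exp b * (1 - F b) ≤ Real.exp a := by nlinarith
  have h3 : Real.exp (-(b - a)) = Real.exp a / Real.exp b := by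
    rw [← Real.exp_sub]
    congr 1
    ring
  rw [h3]
  have h4 : 1 - F b ≤ Real.exp a / Real.exp b := by
    rw [le_div_iff₀ hb]
    linarith
  linarith

theorem ode_121 {G : ℝ → ℝ} {a b c : ℝ} (hab : a ≤ b) (hb : b - a ≤ 1 / 4) (hc0 : 0 ≤ c)
    (hc : ContinuousOn G (Set.Icc a b)) (hG0 : ∀ p ∈ Set.Icc a b, 0 ≤ G p)
    (hGb : ∀ p ∈ Set.Icc a b, G p ≤ G b)
    (hG : ∀ p ∈ Set.Ioo a b, ∃ D : ℝ, 0 ≤ D ∧ HasDerivAt G D p ∧
      1 ≤ c * (p * (1 - p) * D + G p)) :
    b - a ≤ c / 2 * G b := by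
  set H : ℝ → ℝ := fun p => c * (G p / 4 + (p - a) * G b) - (p - a) with hH
  have hder : ∀ p ∈ Set.Ioo a b, ∃ D : ℝ, HasDerivAt H (c * (D / 4 + 1 * G b) - 1) p
      ∧ 0 ≤ D ∧ 1 ≤ c * (p * (1 - p) * D + G p) := by
    intro p hp
    obtain ⟨D, hD0, hD, hD1⟩ := hG p hp
    refine ⟨D, ?_, hD0, hD1⟩
    have h1 : HasDerivAt (fun q => q - a) 1 p := by
      simpa using (hasDerivAt_id p).sub_const a
    have h2 : HasDerivAt (fun q => G q / 4 + (q - a) * G b) (D / 4 + 1 * G b) p :=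
      (hD.div_const 4).add (h1.mul_const (G b))
    exact (h2.const_mul c).sub h1
  have hmono : MonotoneOn H (Set.Icc a b) := by
    apply monotoneOn_of_deriv_nonneg (convex_Icc a b)
    · exact (continuousOn_const.mul ((hc.div_const 4).add
        ((continuousOn_id.sub continuousOn_const).mul continuousOn_const))).sub
        (continuousOn_id.sub continuousOn_const)
    · rw [interior_Icc]
      intro p hp
      obtain ⟨D, hD, -⟩ := hder p hp
      exact hD.differentiableAt.differentiableWithinAt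
    · rw [interior_Icc]
      intro p hp
      obtain ⟨D, hD, hD0, hD1⟩ := hder p hp
      rw [hD.deriv]
      have h1 : p * (1 - p) * D ≤ D / 4 := by
        have : p * (1 - p) ≤ 1 / 4 := by nlinarith [sq_nonneg (p - 1 / 2)]
        nlinarith
      have h2 := hGb p ⟨hp.1.le, hp.2.le⟩
      have h3 : c * (p * (1 - p) * D + G p) ≤ c * (D / 4 + 1 * G b) :=
        mul_le_mul_of_nonneg_left (by linarith) hc0
      linarith
  have h1 := hmono (Set.left_mem_Icc.mpr hab) (Set.right_mem_Icc.mpr hab) hab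
  simp only [hH] at h1
  have ha := hG0 a (Set.left_mem_Icc.mpr hab)
  have hb' := hG0 b (Set.right_mem_Icc.mpr hab)
  have h2 : 0 ≤ c * (G a / 4 + (a - a) * G b) := by
    rw [sub_self, zero_mul, add_zero]
    positivity
  have h3 : (b - a) * G b ≤ 1 / 4 * G b := mul_le_mul_of_nonneg_right hb hb'
  have h4 : c * (G b / 4 + (b - a) * G b) ≤ c * (G b / 4 + 1 / 4 * G b) :=
    mul_le_mul_of_nonneg_left (by linarith) hc0
  linarith

end Pool.Agent.PB
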