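import Pool.Agent.PB.S3.FinP

/-!
# PB-S3-RussoU (3b): Russo's formula off `U`

`p(1-p) d/dp θ^U_{y,n}(p) = Σ_S P(SS = S) 1{y ∈ S} φ^U_p(S;y)`.

PLAN. L = Lbx d n, A T = {ω | Ex n U T y} (constant events). `russo` (Pool/Agent/PB/Russo.lean) and `Ex_opL` give HasDerivAt of thU n U · y at p with
D = Σ_{e ∈ L} (P{Ex (insert e O_e)} - P{Ex O_e}), O_e = opL (L.erase e) p ω. Each summand is P(piv_e), piv_e = {Ex n U (insert e O_e) y ∧ ¬ Ex n U O_e y}
(toReal of a difference of nested events, `Ex.mono`), an event not depending on the label of e (it depends on the labels of L.erase e), so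
(1-p) P(piv_e) = P(piv_e ∩ {e ∉ opn p ω}) (`Pr_edge_not`, `Pr_inter_dep`), and on {e ∉ opn p ω}, O_e = opL L p ω. By `piv_iff` (with O = opL L p ω; then `SS_opL`,
and Rch (opL.. ∩ ins S) = Rch (opn p ω ∩ ins S) as edges of ins S, S ⊆ bx n 0, touch the box):
 ofReal((1-p) D) = Σ_{e ∈ L} P(∃ z w, e = s(z,w), y ∈ S, z ∈ S, w ∉ S, w ∉ U, Rch (O ∩ ins S) y z, e ∉ O), S = SS n U O, O = opn p ω.
For given e the pair (z,w) is unique (z ∈ S, w ∉ S), and s(z,w) ∉ O is automatic (`SS_closed`), so the sum over e ∈ L of the probabilities is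
Σ_z Σ_w [l1 (w-z) = 1] P(y ∈ S, z ∈ S, w ∉ S, w ∉ U, Rch (O ∩ ins S) y z) (e ∈ L iff e is a lattice edge touching the box; z ∈ S ⊆ box). Convenient: write both
sides as ∫⁻ of a sum of indicators, or sum over e of Σ_{(z,w)} [s(z,w) = e] ... (each e ∈ L has exactly two orientations).
`SS_split` + `SS_indep`: = Σ_S P(SS = S) [y ∈ S] Σ_{z ∈ S, w ∉ S ∪ U, l1 (w-z) = 1} P(Rch (O ∩ ins S) y z). Multiply by ofReal p: J p (w-z) = ofReal p
(`J_eq_of`), J = 0 otherwise (`J_eq_zero`): this is Σ_S P(SS = S) [y ∈ S] phiU p U S y. All sums are in ℝ≥0∞, D ≥ 0.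
-/

set_option autoImplicit false
open MeasureTheory Filter Topology
open scoped ENNReal BigOperators

namespace Pool.Agent.PB

variable {d : ℕ}

/-- the event of the pair `(z,w)` -/
private def rQ (n : ℕ) (U : Set (V d)) (p : ℝ) (y z w : V d) : Set (Om d) :=
  {ω | y ∈ SS n U (opn p ω) ∧ z ∈ SS n U (opn p ω) ∧ w ∉ SS n U (opn p ω) ∧ w ∉ U ∧
    Rch (opn p ω ∩ ins (SS n U (opn p ω))) y z}

private theorem rQ_meas (n : ℕ) (U : Set (V d)) (p : ℝ) (y z w : V d) :
    MeasurableSet (rQ n U p y z w) := by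
  have hC := SS_MVS (d := d) n U p
  have hins : MES (fun ω : Om d => ins (SS n U (opn p ω))) := by
    intro e
    have : {ω : Om d | e ∈ ins (SS n U (opn p ω))} =
        ⋂ x : V d, ⋂ _ : x ∈ e, {ω | x ∈ SS n U (opn p ω)} := by
      ext ω
      simp [ins]
    rw [this]
    exact MeasurableSet.iInter fun x => MeasurableSet.iInter fun _ => hC x
  have h5 := ((opn_MES (d := d) p).inter hins).rch y z
  exact (hC y).inter ((hC z).inter ((hC w).compl.inter ((MeasurableSet.const _).inter h5)))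

/-- the pivotal event -/
private def rPiv (n : ℕ) (U : Set (V d)) (p : ℝ) (y : V d) (e : Sym2 (V d)) : Set (Om d) :=
  {ω | Ex n U (insert e (opL ((Lbx d n).erase e) p ω : Set (Sym2 (V d)))) y ∧
    ¬ Ex n U (opL ((Lbx d n).erase e) p ω : Set (Sym2 (V d))) y}

private theorem rPiv_meas (n : ℕ) (U : Set (V d)) (p : ℝ) (y : V d) (e : Sym2 (V d)) :
    MeasurableSet (rPiv n U p y e) := by
  have h := measurableSet_opL_event ((Lbx d n).erase e) p
    (A := fun T => {_ω : Om d | Ex n U (insert e (T : Set (Sym2 (V d)))) y ∧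
      ¬ Ex n U (T : Set (Sym2 (V d))) y}) (fun T _ => MeasurableSet.const _)
  exact h

private theorem rPiv_dep (n : ℕ) (U : Set (V d)) (p : ℝ) (y : V d) (e : Sym2 (V d)) :
    DependsOn (fun ω => ω ∈ rPiv n U p y e) {Sum.inl e}ᶜ := by
  intro ω ω' h
  have : opL ((Lbx d n).erase e) p ω = opL ((Lbx d n).erase e) p ω' := by
    ext f
    rw [mem_opL, mem_opL]
    have key : f ∈ (Lbx d n).erase e → ω (Sum.inl f) = ω' (Sum.inl f) := by
      intro hf
      apply h
      intro hc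
      exact (Finset.mem_erase.1 hf).1 (Sum.inl_injective hc)
    constructor
    · rintro ⟨h1, h2⟩
      exact ⟨h1, by rw [← key h1]; exact h2⟩
    · rintro ⟨h1, h2⟩
      exact ⟨h1, by rw [key h1]; exact h2⟩
  simp only [rPiv, Set.mem_ofPred_eq, this]

private theorem rPiv_inter {n : ℕ} {U : Set (V d)} {y : V d} (hyU : y ∉ U)
    (hyn : y ∈ bx n (0 : V d)) (p : ℝ) {e : Sym2 (V d)} (he : e ∈ Lbx d n) :
    rPiv n U p y e ∩ {ω | e ∉ opn p ω} =
      ⋃ q : V d × V d, {ω | s(q.1, q.2) = e ∧ ω ∈ rQ n U p y q.1 q.2} := by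
  ext ω
  have heE : e ∈ (lat d).edgeSet := (mem_Lbx.1 he).1
  have hL : ((opL (Lbx d n) p ω : Finset (Sym2 (V d))) : Set (Sym2 (V d))) =
      opn p ω ∩ (Lbx d n : Set (Sym2 (V d))) :=
    coe_opL (fun e he => (mem_Lbx.1 he).1) p ω
  have hins : (opL (Lbx d n) p ω : Set (Sym2 (V d))) ∩ ins (SS n U (opn p ω)) =
      opn p ω ∩ ins (SS n U (opn p ω)) := by
    rw [hL]
    ext f
    constructor
    · rintro ⟨⟨h1, _⟩, h2⟩
      exact ⟨h1, h2⟩
    · rintro ⟨h1, h2⟩
      refine ⟨⟨h1, ?_⟩, h2⟩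
      rw [Finset.mem_coe, mem_Lbx]
      refine ⟨h1.1, ?_⟩
      induction f using Sym2.ind with
      | _ a b => exact mem_touch_left (SS_subset n U _ (mem_ins.1 h2).1)
  have hop : e ∉ opn p ω → opL ((Lbx d n).erase e) p ω = opL (Lbx d n) p ω := by
    intro hne
    ext f
    rw [mem_opL, mem_opL, Finset.mem_erase]
    constructor
    · rintro ⟨⟨_, h1⟩, h2⟩
      exact ⟨h1, h2⟩
    · rintro ⟨h1, h2⟩
      refine ⟨⟨?_, h1⟩, h2⟩
      intro hfe
      subst hfe
      exact hne ⟨heE, h2⟩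
  have hnot : e ∉ opn p ω → e ∉ (opL (Lbx d n) p ω : Set (Sym2 (V d))) := by
    intro hne hc
    rw [hL] at hc
    exact hne hc.1
  simp only [Set.mem_inter_iff, Set.mem_iUnion, Set.mem_ofPred_eq]
  constructor
  · rintro ⟨⟨h1, h2⟩, h3⟩
    rw [hop h3] at h1 h2
    obtain ⟨z, w, h4, h5, h6, h7, h8, h9⟩ := (piv_iff (hnot h3) hyn hyU).1 ⟨h1, h2⟩
    rw [SS_opL] at h5 h6 h7 h9
    rw [hins] at h9
    exact ⟨(z, w), h4.symm, h5, h6, h7, h8, h9⟩
  · rintro ⟨⟨z, w⟩, h4, h5, h6, h7, h8, h9⟩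
    have h3 : e ∉ opn p ω := by
      intro hc
      rw [← h4] at hc
      exact h7 (SS_closed h6 h8 hc)
    refine ⟨?_, h3⟩
    have h10 := (piv_iff (hnot h3) hyn hyU).2 ⟨z, w, h4.symm, by rw [SS_opL]; exact h5,
      by rw [SS_opL]; exact h6, by rw [SS_opL]; exact h7, h8, by
        rw [SS_opL, hins]; exact h9⟩
    simp only [rPiv, Set.mem_ofPred_eq]
    rw [hop h3]
    exact h10

private theorem rSum {n : ℕ} {U : Set (V d)} {y : V d} (hyU : y ∉ U)
    (hyn : y ∈ bx n (0 : V d)) {p : ℝ} (h0 : 0 < p) (h1 : p < 1) {e : Sym2 (V d)}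
    (he : e ∈ Lbx d n) :
    ENNReal.ofReal (1 - p) * Pr d (rPiv n U p y e) =
      ∑' q : V d × V d, (if s(q.1, q.2) = e then Pr d (rQ n U p y q.1 q.2) else 0) := by
  classical
  have h2 : Pr d {ω : Om d | e ∉ opn p ω} = ENNReal.ofReal (1 - p) := by
    rw [Pr_edge_not p (mem_Lbx.1 he).1, min_eq_left h1.le, ENNReal.ofReal_sub _ h0.le,
      ENNReal.ofReal_one]
  have h3 : Pr d (rPiv n U p y e ∩ {ω | e ∉ opn p ω}) =
      Pr d (rPiv n U p y e) * Pr d {ω : Om d | e ∉ opn p ω} :=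
    Pr_inter_dep (S := {Sum.inl e}ᶜ) (T := {Sum.inl e}) disjoint_compl_left
      (rPiv_meas n U p y e) (opn_MES p e).compl (rPiv_dep n U p y e)
      (dep_compl (A := {ω : Om d | e ∈ opn p ω}) (dep_mem_opn p e))
  rw [← h2, mul_comm, ← h3, rPiv_inter hyU hyn p he, measure_iUnion]
  · refine tsum_congr fun q => ?_
    by_cases hq : s(q.1, q.2) = e
    · rw [if_pos hq]
      congr 1
      ext ω
      simp [hq]
    · rw [if_neg hq]
      have : {ω : Om d | s(q.1, q.2) = e ∧ ω ∈ rQ n U p y q.1 q.2} = ∅ := by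
        ext ω
        simp [hq]
      rw [this, measure_empty]
  · rintro ⟨z, w⟩ ⟨z', w'⟩ hne
    simp only [Function.onFun]
    rw [Set.disjoint_left]
    rintro ω ⟨ha, hb⟩ ⟨ha', hb'⟩
    apply hne
    rw [← ha', Sym2.eq_iff] at ha
    rcases ha with ⟨h4, h5⟩ | ⟨h4, h5⟩
    · rw [h4, h5]
    · exfalso
      have h6 : z ∈ SS n U (opn p ω) := hb.2.1
      have h7 : w' ∉ SS n U (opn p ω) := hb'.2.2.1
      rw [h4] at h6
      exact h7 h6
  · intro q
    exact (MeasurableSet.const _).inter (rQ_meas n U p y q.1 q.2)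

private theorem rQ_split (n : ℕ) (U : Set (V d)) (p : ℝ) (y z w : V d) :
    Pr d (rQ n U p y z w) = ∑' S : Finset (V d),
      Set.indicator {S : Finset (V d) | y ∈ S ∧ z ∈ S ∧ w ∉ S ∧ w ∉ U}
        (fun S => Pr d {ω : Om d | SS n U (opn p ω) = (S : Set (V d))} *
          Pr d {ω : Om d | Rch (opn p ω ∩ ins (S : Set (V d))) y z}) S := by
  rw [SS_split n U p (rQ_meas n U p y z w)]
  refine tsum_congr fun S => ?_
  by_cases hS : y ∈ S ∧ z ∈ S ∧ w ∉ S ∧ w ∉ U
  · rw [Set.indicator_of_mem (by exact hS), ← SS_indep n U p (S : Set (V d)) y z]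
    congr 1
    ext ω
    simp only [Set.mem_inter_iff, Set.mem_ofPred_eq, rQ]
    constructor
    · rintro ⟨h1, h2⟩
      rw [h1] at h2
      exact ⟨h1, h2.2.2.2.2⟩
    · rintro ⟨h1, h2⟩
      refine ⟨h1, ?_⟩
      rw [h1]
      exact ⟨hS.1, hS.2.1, hS.2.2.1, hS.2.2.2, h2⟩
  · rw [Set.indicator_of_notMem (by exact hS)]
    have : {ω : Om d | SS n U (opn p ω) = (S : Set (V d))} ∩ rQ n U p y z w = ∅ := by
      ext ω
      simp only [Set.mem_inter_iff, Set.mem_ofPred_eq, rQ, Set.mem_empty_iff_false, iff_false]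
      rintro ⟨h1, h2⟩
      rw [h1] at h2
      exact hS ⟨h2.1, h2.2.1, h2.2.2.1, h2.2.2.2.1⟩
    rw [this, measure_empty]

theorem russo_off {n : ℕ} {U : Set (V d)} {y : V d} (hyU : y ∉ U) (hyn : y ∈ bx n (0 : V d))
    {p : ℝ} (h0 : 0 < p) (h1 : p < 1) :
    ∃ D : ℝ, 0 ≤ D ∧ HasDerivAt (fun q => thU n U q y) D p ∧
      ENNReal.ofReal (p * (1 - p) * D) =
        ∑' S : Finset (V d), Pr d {ω : Om d | SS n U (opn p ω) = (S : Set (V d))} *
          Set.indicator {S : Finset (V d) | y ∈ S} (fun S => phiU p U S y) S := by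
  classical
  have hrusso := russo (d := d) (Lbx d n)
    (A := fun T => {_ω : Om d | Ex n U (T : Set (Sym2 (V d))) y})
    (fun T _ => MeasurableSet.const _) (fun T _ _ _ _ => rfl) h0 h1
  have hfun : (fun q : ℝ => (Pr d {ω : Om d | ω ∈ (fun T : Finset (Sym2 (V d)) =>
      {_ω : Om d | Ex n U (T : Set (Sym2 (V d))) y}) (opL (Lbx d n) q ω)}).toReal) =
      fun q => thU n U q y := by
    funext q
    unfold thU
    congr 2
    ext ω
    exact (Ex_opL n U q ω y).symm
  rw [hfun] at hrusso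
  -- the summands
  have hterm : ∀ e : Sym2 (V d), ((Pr d {ω : Om d | ω ∈ (fun T : Finset (Sym2 (V d)) =>
      {_ω : Om d | Ex n U (T : Set (Sym2 (V d))) y})
        (insert e (opL ((Lbx d n).erase e) p ω))}).toReal -
      (Pr d {ω : Om d | ω ∈ (fun T : Finset (Sym2 (V d)) =>
      {_ω : Om d | Ex n U (T : Set (Sym2 (V d))) y}) (opL ((Lbx d n).erase e) p ω)}).toReal) =
      (Pr d (rPiv n U p y e)).toReal := by
    intro e
    have hm : MeasurableSet {ω : Om d | ω ∈ (fun T : Finset (Sym2 (V d)) =>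
        {_ω : Om d | Ex n U (T : Set (Sym2 (V d))) y}) (opL ((Lbx d n).erase e) p ω)} :=
      measurableSet_opL_event _ p (A := fun T : Finset (Sym2 (V d)) =>
        {_ω : Om d | Ex n U (T : Set (Sym2 (V d))) y}) (fun T _ => MeasurableSet.const _)
    have hset : {ω : Om d | ω ∈ (fun T : Finset (Sym2 (V d)) =>
        {_ω : Om d | Ex n U (T : Set (Sym2 (V d))) y})
          (insert e (opL ((Lbx d n).erase e) p ω))} =
        rPiv n U p y e ∪ {ω : Om d | ω ∈ (fun T : Finset (Sym2 (V d)) =>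
        {_ω : Om d | Ex n U (T : Set (Sym2 (V d))) y}) (opL ((Lbx d n).erase e) p ω)} := by
      ext ω
      simp only [Set.mem_union, Set.mem_ofPred_eq, rPiv, Finset.coe_insert]
      constructor
      · intro h
        by_cases h2 : Ex n U (opL ((Lbx d n).erase e) p ω : Set (Sym2 (V d))) y
        · exact Or.inr h2
        · exact Or.inl ⟨h, h2⟩
      · rintro (⟨h, _⟩ | h)
        · exact h
        · exact Ex.mono (Set.subset_insert _ _) h
    have hdis : Disjoint (rPiv n U p y e) {ω : Om d | ω ∈ (fun T : Finset (Sym2 (V d)) =>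
        {_ω : Om d | Ex n U (T : Set (Sym2 (V d))) y}) (opL ((Lbx d n).erase e) p ω)} := by
      rw [Set.disjoint_left]
      rintro ω ⟨_, h2⟩ h3
      exact h2 h3
    rw [hset, measure_union hdis hm, ENNReal.toReal_add (measure_ne_top _ _)
      (measure_ne_top _ _), add_sub_cancel_right]
  refine ⟨∑ e ∈ Lbx d n, (Pr d (rPiv n U p y e)).toReal,
    Finset.sum_nonneg fun e _ => ENNReal.toReal_nonneg, ?_, ?_⟩
  · refine hrusso.congr_deriv ?_
    exact Finset.sum_congr rfl fun e _ => hterm e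
  -- the identity
  have hp1 : 0 < 1 - p := by linarith
  rw [mul_assoc, ENNReal.ofReal_mul h0.le, Finset.mul_sum,
    ENNReal.ofReal_sum_of_nonneg (fun e _ => mul_nonneg hp1.le ENNReal.toReal_nonneg)]
  have h2 : ∑ e ∈ Lbx d n, ENNReal.ofReal ((1 - p) * (Pr d (rPiv n U p y e)).toReal) =
      ∑' q : V d × V d, (if s(q.1, q.2) ∈ Lbx d n then Pr d (rQ n U p y q.1 q.2) else 0) := by
    have h3 : ∀ e ∈ Lbx d n, ENNReal.ofReal ((1 - p) * (Pr d (rPiv n U p y e)).toReal) =
        ∑' q : V d × V d, (if s(q.1, q.2) = e then Pr d (rQ n U p y q.1 q.2) else 0) := by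
      intro e he
      rw [← rSum hyU hyn h0 h1 he, ENNReal.ofReal_mul hp1.le,
        ENNReal.ofReal_toReal (measure_ne_top _ _)]
    rw [Finset.sum_congr rfl h3, ← Summable.tsum_finsetSum (fun e _ => ENNReal.summable)]
    refine tsum_congr fun q => ?_
    rw [Finset.sum_ite_eq]
  rw [h2, ← ENNReal.tsum_mul_left]
  -- pointwise
  have hbox : ∀ S : Finset (V d), Pr d {ω : Om d | SS n U (opn p ω) = (S : Set (V d))} ≠ 0 →
      (S : Set (V d)) ⊆ bx n 0 := by
    intro S hS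
    have hne : {ω : Om d | SS n U (opn p ω) = (S : Set (V d))}.Nonempty := by
      rw [Set.nonempty_iff_ne_empty]
      intro hemp
      rw [hemp, measure_empty] at hS
      exact hS rfl
    obtain ⟨ω, hω⟩ := hne
    have hω' : SS n U (opn p ω) = (S : Set (V d)) := hω
    rw [← hω']
    exact SS_subset n U _
  have h4 : ∀ q : V d × V d, ENNReal.ofReal p *
      (if s(q.1, q.2) ∈ Lbx d n then Pr d (rQ n U p y q.1 q.2) else 0) =
      ∑' S : Finset (V d), (if y ∈ S ∧ q.1 ∈ S ∧ q.2 ∉ S ∧ q.2 ∉ U then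
        Pr d {ω : Om d | SS n U (opn p ω) = (S : Set (V d))} *
          (J p (q.2 - q.1) * Pr d {ω : Om d | Rch (opn p ω ∩ ins (S : Set (V d))) y q.1})
        else 0) := by
    rintro ⟨z, w⟩
    simp only
    have h5 : ∀ S : Finset (V d), (if y ∈ S ∧ z ∈ S ∧ w ∉ S ∧ w ∉ U then
        Pr d {ω : Om d | SS n U (opn p ω) = (S : Set (V d))} *
          (J p (w - z) * Pr d {ω : Om d | Rch (opn p ω ∩ ins (S : Set (V d))) y z})
        else 0) = ENNReal.ofReal p * (if s(z, w) ∈ Lbx d n then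
          Set.indicator {S : Finset (V d) | y ∈ S ∧ z ∈ S ∧ w ∉ S ∧ w ∉ U}
          (fun S => Pr d {ω : Om d | SS n U (opn p ω) = (S : Set (V d))} *
          Pr d {ω : Om d | Rch (opn p ω ∩ ins (S : Set (V d))) y z}) S else 0) := by
      intro S
      by_cases hS : y ∈ S ∧ z ∈ S ∧ w ∉ S ∧ w ∉ U
      · rw [if_pos hS, Set.indicator_of_mem (by exact hS)]
        by_cases ha : Pr d {ω : Om d | SS n U (opn p ω) = (S : Set (V d))} = 0
        · rw [ha]
          simp
        · have hz : z ∈ bx n (0 : V d) := hbox S ha (by exact_mod_cast hS.2.1)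
          by_cases hl : l1 (w - z) = 1
          · have hmem : s(z, w) ∈ Lbx d n := mem_Lbx.2 ⟨hl, mem_touch_left hz⟩
            rw [if_pos hmem, J_eq_of hl]
            ring
          · have hmem : s(z, w) ∉ Lbx d n := fun h => hl (mem_Lbx.1 h).1
            rw [if_neg hmem, J_eq_zero hl]
            simp
      · rw [if_neg hS, Set.indicator_of_notMem (by exact hS)]
        simp
    rw [tsum_congr h5, ENNReal.tsum_mul_left]
    congr 1
    by_cases hm : s(z, w) ∈ Lbx d n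
    · simp only [if_pos hm]
      exact rQ_split n U p y z w
    · simp only [if_neg hm, tsum_zero]
  rw [tsum_congr h4, ENNReal.tsum_comm]
  refine tsum_congr fun S => ?_
  by_cases hy : y ∈ S
  · rw [Set.indicator_of_mem (by exact hy)]
    unfold phiU
    rw [ENNReal.tsum_prod', ← ENNReal.tsum_mul_left]
    refine tsum_congr fun z => ?_
    rw [← ENNReal.tsum_mul_left]
    refine tsum_congr fun w => ?_
    by_cases hc : z ∈ S ∧ w ∉ S ∧ w ∉ U
    · rw [if_pos ⟨hy, hc⟩, if_pos hc]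
    · rw [if_neg (fun h => hc h.2), if_neg hc, mul_zero]
  · rw [Set.indicator_of_notMem (by exact hy), mul_zero]
    have h6 : ∀ q : V d × V d, (if y ∈ S ∧ q.1 ∈ S ∧ q.2 ∉ S ∧ q.2 ∉ U then
        Pr d {ω : Om d | SS n U (opn p ω) = (S : Set (V d))} *
          (J p (q.2 - q.1) * Pr d {ω : Om d | Rch (opn p ω ∩ ins (S : Set (V d))) y q.1})
        else 0) = 0 := fun q => if_neg (fun h => hy h.1)
    rw [tsum_congr h6, tsum_zero]

end Pool.Agent.PB
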