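import Pool.Agent.PB.S3.PhiSplit
import Pool.Agent.PB.S3.RussoU
import Pool.Agent.PB.S3.ODE
import Pool.Agent.PB.S3.Phi

/-!
# PB-S3-L121: section 12.1 (field `h1` of `In12`)

PLAN. Fix U, V' ⊆ U, ε₁, pc + ε₁ ≤ 1; c = pc d. `phi_ge_any`: 1 ≤ phi (pc) T u for every finite T ∋ u (`phi_transl` and hC.phi_ge).
(1) `one_le_at`: n with q.2 ∈ bx n 0 for all q ∈ bdE U U; pc < p < 1. For every finite S with {SS n U (opn p ω) = S} nonempty (so U, S disjoint: SS avoids U):
1 ≤ phi (pc) (U ∪ S) u ≤ ofReal pc * Σ_q tau pc (q.1-u) Psi pc U S q.2 ≤ ofReal pc * Σ_q tau (q.1-u) Psi p U S q.2 (`phiU_mono`). Multiply by P_p(SS = S), sum over S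
(`SS_split` with A = univ: Σ_S P(SS = S) = 1): 1 ≤ ofReal pc Σ_q tau(q.1-u) Σ_S P(SS = S) Psi p U S q.2, and for y = q.2 ∉ U, y ∈ bx n 0:
Σ_S P(SS = S) Psi p U S y = Σ_S P(SS=S)[y ∈ S] phiU p U S y + P(y ∉ SS) = ofReal(p(1-p) D_y) + P(Ex n U (opn p ω) y) (`russo_off`, `SS_split` with
A = {Ex n U (opn p ω) y}: y ∉ SS iff Ex, as y ∈ bx n 0 \ U). In real numbers: 1 ≤ pc Σ_q ta(q.1-u) (p(1-p) D_q + thU n U p q.2).
(2) G(p) = Σ_q ta(q.1-u) thU n U p q.2: `HasDerivAt.sum`, derivative Σ ta D_q ≥ 0, continuous on [pc, pc+ε₁] ⊆ [0,1] (`thU_cont`), monotone (`thU_mono`); `ode_121`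
with a = pc, b = pc + ε₁, c = pc: ε₁ ≤ (pc/2) Σ_q ta(q.1-u) thU n U (pc+ε₁) q.2.
(3) sum over u ∈ V': ta(q.1-u) = ta(u-q.1) (`tau_neg`), Σ_u ta(u-q.1) = hV V' q.1 (Finset.sum_comm). (4) n → ∞: `thU_tendsto` (finite sum),
`ge_of_tendsto'`/`le_of_tendsto'` for n ≥ n0.
-/

set_option autoImplicit false
open MeasureTheory Filter Topology
open scoped ENNReal BigOperators

namespace Pool.Agent.PB

variable {d : ℕ}

private theorem l121_phi_ge (hC : Crit d) (T : Finset (V d)) {u : V d} (hu : u ∈ T) :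
    1 ≤ phi (pc d) T u := by
  rw [phi_transl]
  refine hC.phi_ge _ ?_
  rw [Finset.mem_image]
  exact ⟨u, hu, sub_self u⟩

private theorem l121_tau (x : V d) : tau (pc d) x = ENNReal.ofReal (ta x) := by
  unfold ta
  rw [ENNReal.ofReal_toReal]
  exact measure_ne_top _ _

private theorem l121_ta_nonneg (x : V d) : 0 ≤ ta x := ENNReal.toReal_nonneg

private theorem l121_ta_neg (x : V d) : ta (-x) = ta x := by
  unfold ta
  rw [tau_neg]

/-- the value of the sum over `S` for one boundary vertex -/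
private theorem l121_sum {U : Finset (V d)} {n : ℕ} {y : V d} (hyU : y ∉ U)
    (hyn : y ∈ bx n (0 : V d)) {p D : ℝ} (hD : ENNReal.ofReal (p * (1 - p) * D) =
        ∑' S : Finset (V d), Pr d {ω : Om d | SS n (U : Set (V d)) (opn p ω) = (S : Set (V d))} *
          Set.indicator {S : Finset (V d) | y ∈ S} (fun S => phiU p (U : Set (V d)) S y) S) :
    ∑' S : Finset (V d), Pr d {ω : Om d | SS n (U : Set (V d)) (opn p ω) = (S : Set (V d))} *
      Psi p (U : Set (V d)) S y =
      ENNReal.ofReal (p * (1 - p) * D) + ENNReal.ofReal (thU n (U : Set (V d)) p y) := by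
  classical
  have h1 : ENNReal.ofReal (thU n (U : Set (V d)) p y) =
      ∑' S : Finset (V d), Pr d {ω : Om d | SS n (U : Set (V d)) (opn p ω) = (S : Set (V d))} *
        Set.indicator {S : Finset (V d) | y ∉ S} (fun _ => 1) S := by
    unfold thU
    rw [ENNReal.ofReal_toReal (measure_ne_top _ _), SS_split n (U : Set (V d)) p
      (measurableSet_Ex n (U : Set (V d)) p y)]
    refine tsum_congr fun S => ?_
    by_cases hyS : y ∈ S
    · rw [Set.indicator_of_notMem (by simpa using hyS), mul_zero]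
      have h2 : {ω : Om d | SS n (U : Set (V d)) (opn p ω) = (S : Set (V d))} ∩
          {ω : Om d | Ex n (U : Set (V d)) (opn p ω) y} = ∅ := by
        ext ω
        simp only [Set.mem_inter_iff, Set.mem_ofPred_eq, Set.mem_empty_iff_false, iff_false,
          not_and]
        intro hS hE
        have h3 : y ∈ SS n (U : Set (V d)) (opn p ω) := by rw [hS]; exact hyS
        exact h3.2.2 hE
      rw [h2, measure_empty]
    · rw [Set.indicator_of_mem (by simpa using hyS), mul_one]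
      congr 1
      ext ω
      simp only [Set.mem_inter_iff, Set.mem_ofPred_eq, and_iff_left_iff_imp]
      intro hS
      by_contra hE
      have h3 : y ∈ SS n (U : Set (V d)) (opn p ω) := ⟨hyn, by simpa using hyU, hE⟩
      rw [hS] at h3
      exact hyS h3
  rw [h1, hD, ← ENNReal.tsum_add]
  refine tsum_congr fun S => ?_
  rw [← mul_add]
  congr 1
  unfold Psi
  by_cases hyS : y ∈ S
  · rw [if_pos hyS, Set.indicator_of_mem (by simpa using hyS),
      Set.indicator_of_notMem (by simpa using hyS), add_zero]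
  · rw [if_neg hyS, Set.indicator_of_notMem (by simpa using hyS),
      Set.indicator_of_mem (by simpa using hyS), zero_add]

theorem one_le_at (hC : Crit d) {U : Finset (V d)} {u : V d} (hu : u ∈ U) {n : ℕ}
    (hn : ∀ q ∈ bdE U U, q.2 ∈ bx n (0 : V d)) {p : ℝ} (hp : pc d < p) (h1 : p < 1) :
    ∃ D : V d → ℝ, (∀ q ∈ bdE U U, 0 ≤ D q.2 ∧ HasDerivAt (fun r => thU n U r q.2) (D q.2) p) ∧
      1 ≤ pc d * ∑ q ∈ bdE U U, ta (q.1 - u) * (p * (1 - p) * D q.2 + thU n U p q.2) := by
  classical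
  have hp0 : 0 < p := hC.pc_pos.trans hp
  have hex : ∀ y : V d, ∃ D : ℝ, (y ∉ (U : Set (V d)) → y ∈ bx n (0 : V d) →
      0 ≤ D ∧ HasDerivAt (fun q => thU n (U : Set (V d)) q y) D p ∧
      ENNReal.ofReal (p * (1 - p) * D) =
        ∑' S : Finset (V d), Pr d {ω : Om d | SS n (U : Set (V d)) (opn p ω) = (S : Set (V d))} *
          Set.indicator {S : Finset (V d) | y ∈ S} (fun S => phiU p (U : Set (V d)) S y) S) := by
    intro y
    by_cases hy : y ∉ (U : Set (V d)) ∧ y ∈ bx n (0 : V d)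
    · obtain ⟨D, hD⟩ := russo_off hy.1 hy.2 hp0 h1
      exact ⟨D, fun _ _ => hD⟩
    · exact ⟨0, fun a b => absurd ⟨a, b⟩ hy⟩
  choose D hD using hex
  have hq : ∀ q ∈ bdE U U, q.2 ∉ (U : Set (V d)) ∧ q.2 ∈ bx n (0 : V d) := fun q hq =>
    ⟨by simpa using (mem_bdE.1 hq).2.1, hn q hq⟩
  refine ⟨D, fun q hq' => ?_, ?_⟩
  · obtain ⟨a, b, -⟩ := hD q.2 (hq q hq').1 (hq q hq').2
    exact ⟨a, b⟩
  · set P : Finset (V d) → ℝ≥0∞ := fun S =>
      Pr d {ω : Om d | SS n (U : Set (V d)) (opn p ω) = (S : Set (V d))} with hP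
    have hsum1 : ∑' S, P S = 1 := by
      have h2 := SS_split n (U : Set (V d)) p (A := (Set.univ : Set (Om d))) MeasurableSet.univ
      simp only [Set.inter_univ, measure_univ] at h2
      exact h2.symm
    have hterm : ∀ S : Finset (V d), P S ≤ P S * (ENNReal.ofReal (pc d) *
        ∑ q ∈ bdE U U, tau (pc d) (q.1 - u) * Psi p (U : Set (V d)) S q.2) := by
      intro S
      by_cases hdis : Disjoint U S
      · have h3 : 1 ≤ ENNReal.ofReal (pc d) *
            ∑ q ∈ bdE U U, tau (pc d) (q.1 - u) * Psi p (U : Set (V d)) S q.2 := by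
          refine (l121_phi_ge hC (U ∪ S) (Finset.mem_union_left _ hu)).trans
            ((phi_split_fin (pc d) U S hdis hu).trans ?_)
          gcongr with q _
          unfold Psi
          split_ifs
          · exact phiU_mono hp.le _ _ _
          · exact le_rfl
        calc P S = P S * 1 := (mul_one _).symm
          _ ≤ _ := by gcongr
      · have h3 : P S = 0 := by
          have h4 : {ω : Om d | SS n (U : Set (V d)) (opn p ω) = (S : Set (V d))} = ∅ := by
            ext ω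
            simp only [Set.mem_ofPred_eq, Set.mem_empty_iff_false, iff_false]
            intro hS
            apply hdis
            rw [Finset.disjoint_left]
            intro x hxU hxS
            have h5 : x ∈ SS n (U : Set (V d)) (opn p ω) := by rw [hS]; exact hxS
            exact h5.2.1 hxU
          rw [hP]
          simp only [h4, measure_empty]
        rw [h3]
        exact zero_le
    have h6 : (1 : ℝ≥0∞) ≤ ENNReal.ofReal (pc d) *
        ∑ q ∈ bdE U U, tau (pc d) (q.1 - u) * (ENNReal.ofReal (p * (1 - p) * D q.2) +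
          ENNReal.ofReal (thU n (U : Set (V d)) p q.2)) := by
      calc (1 : ℝ≥0∞) = ∑' S, P S := hsum1.symm
        _ ≤ ∑' S, P S * (ENNReal.ofReal (pc d) *
            ∑ q ∈ bdE U U, tau (pc d) (q.1 - u) * Psi p (U : Set (V d)) S q.2) :=
            ENNReal.tsum_le_tsum hterm
        _ = ∑' S, ∑ q ∈ bdE U U, ENNReal.ofReal (pc d) * (tau (pc d) (q.1 - u) *
            (P S * Psi p (U : Set (V d)) S q.2)) := by
            refine tsum_congr fun S => ?_
            rw [Finset.mul_sum, Finset.mul_sum]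
            refine Finset.sum_congr rfl fun q _ => ?_
            ring
        _ = ∑ q ∈ bdE U U, ∑' S, ENNReal.ofReal (pc d) * (tau (pc d) (q.1 - u) *
            (P S * Psi p (U : Set (V d)) S q.2)) :=
            Summable.tsum_finsetSum fun _ _ => ENNReal.summable
        _ = _ := by
            rw [Finset.mul_sum]
            refine Finset.sum_congr rfl fun q hq' => ?_
            rw [ENNReal.tsum_mul_left, ENNReal.tsum_mul_left]
            congr 2
            exact l121_sum (by simpa using (hq q hq').1) (hq q hq').2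
              (hD q.2 (hq q hq').1 (hq q hq').2).2.2
    have h7 : ENNReal.ofReal (pc d) *
        ∑ q ∈ bdE U U, tau (pc d) (q.1 - u) * (ENNReal.ofReal (p * (1 - p) * D q.2) +
          ENNReal.ofReal (thU n (U : Set (V d)) p q.2)) =
        ENNReal.ofReal (pc d * ∑ q ∈ bdE U U, ta (q.1 - u) *
          (p * (1 - p) * D q.2 + thU n U p q.2)) := by
      have h8 : ∀ q ∈ bdE U U, 0 ≤ p * (1 - p) * D q.2 := fun q hq' =>
        mul_nonneg (mul_nonneg hp0.le (by linarith)) (hD q.2 (hq q hq').1 (hq q hq').2).1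
      rw [ENNReal.ofReal_mul hC.pc_pos.le, ENNReal.ofReal_sum_of_nonneg]
      · congr 1
        refine Finset.sum_congr rfl fun q hq' => ?_
        rw [ENNReal.ofReal_mul (l121_ta_nonneg _),
          ENNReal.ofReal_add (h8 q hq') (thU_nonneg _ _ _ _), l121_tau]
      · intro q hq'
        exact mul_nonneg (l121_ta_nonneg _) (add_nonneg (h8 q hq') (thU_nonneg _ _ _ _))
    rw [h7, ← ENNReal.ofReal_one] at h6
    exact (ENNReal.ofReal_le_ofReal_iff' .. |>.1 h6).resolve_right (by norm_num)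

theorem in12_1 (hC : Crit d) (U V' : Finset (V d)) (hV' : V' ⊆ U) (ε₁ : ℝ) (h0 : 0 < ε₁)
    (h1 : ε₁ ≤ 1 / 4) (h2 : pc d + ε₁ ≤ 1) :
    ε₁ * V'.card ≤ (pc d / 2) *
      ∑ q ∈ bdE U U, hV V' q.1 * (thA (pc d + ε₁) (Del.ofSet (U : Set (V d))) q.2).toReal := by
  classical
  set n0 : ℕ := (bdE U U).sup (fun q => ∑ i, (q.2 i).natAbs) with hn0
  have hbx : ∀ n, n0 ≤ n → ∀ q ∈ bdE U U, q.2 ∈ bx n (0 : V d) := by
    intro n hn q hq
    refine bx_mono3 hn 0 ?_
    intro i
    rw [Pi.zero_apply, sub_zero]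
    have h3 : (q.2 i).natAbs ≤ ∑ i, (q.2 i).natAbs :=
      Finset.single_le_sum (f := fun i => (q.2 i).natAbs) (fun _ _ => Nat.zero_le _)
        (Finset.mem_univ i)
    have h4 : ∑ i, (q.2 i).natAbs ≤ n0 :=
      Finset.le_sup (f := fun q : V d × V d => ∑ i, (q.2 i).natAbs) hq
    have h5 : |q.2 i| = ((q.2 i).natAbs : ℤ) := Int.abs_eq_natAbs (q.2 i)
    rw [h5]
    exact_mod_cast h3.trans h4
  have hone : ∀ n, n0 ≤ n → ∀ u ∈ V', ε₁ ≤ pc d / 2 *
      ∑ q ∈ bdE U U, ta (q.1 - u) * thU n (U : Set (V d)) (pc d + ε₁) q.2 := by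
    intro n hn u hu
    have h3 := ode_121 (G := fun p => ∑ q ∈ bdE U U, ta (q.1 - u) *
      thU n (U : Set (V d)) p q.2) (a := pc d) (b := pc d + ε₁) (c := pc d) (by linarith)
      (by linarith) hC.pc_pos.le ?_ ?_ ?_ ?_
    · simpa using h3
    · refine continuousOn_finsetSum _ fun q _ => continuousOn_const.mul ?_
      exact (thU_cont n (U : Set (V d)) q.2).mono (Set.Icc_subset_Icc hC.pc_pos.le h2)
    · intro p _
      exact Finset.sum_nonneg fun q _ => mul_nonneg (l121_ta_nonneg _) (thU_nonneg _ _ _ _)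
    · intro p hp
      refine Finset.sum_le_sum fun q _ => mul_le_mul_of_nonneg_left ?_ (l121_ta_nonneg _)
      exact thU_mono n (U : Set (V d)) q.2 hp.2
    · intro p hp
      obtain ⟨D, hD1, hD2⟩ := one_le_at hC (hV' hu) (hbx n hn) hp.1 (lt_of_lt_of_le hp.2 h2)
      refine ⟨∑ q ∈ bdE U U, ta (q.1 - u) * D q.2, ?_, ?_, ?_⟩
      · exact Finset.sum_nonneg fun q hq => mul_nonneg (l121_ta_nonneg _) (hD1 q hq).1
      · exact HasDerivAt.fun_sum fun q hq => (hD1 q hq).2.const_mul _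
      · refine hD2.trans (le_of_eq ?_)
        congr 1
        rw [Finset.mul_sum, ← Finset.sum_add_distrib]
        refine Finset.sum_congr rfl fun q _ => ?_
        ring
  have hall : ∀ n, n0 ≤ n → ε₁ * V'.card ≤ (pc d / 2) *
      ∑ q ∈ bdE U U, hV V' q.1 * thU n (U : Set (V d)) (pc d + ε₁) q.2 := by
    intro n hn
    have h3 : ∑ _u ∈ V', ε₁ ≤ ∑ u ∈ V', (pc d / 2 *
        ∑ q ∈ bdE U U, ta (q.1 - u) * thU n (U : Set (V d)) (pc d + ε₁) q.2) :=
      Finset.sum_le_sum fun u hu => hone n hn u hu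
    rw [Finset.sum_const, nsmul_eq_mul, ← Finset.mul_sum, Finset.sum_comm] at h3
    have h4 : ∑ q ∈ bdE U U, ∑ u ∈ V', ta (q.1 - u) * thU n (U : Set (V d)) (pc d + ε₁) q.2 =
        ∑ q ∈ bdE U U, hV V' q.1 * thU n (U : Set (V d)) (pc d + ε₁) q.2 := by
      refine Finset.sum_congr rfl fun q _ => ?_
      unfold hV
      rw [Finset.sum_mul]
      refine Finset.sum_congr rfl fun u _ => ?_
      rw [← l121_ta_neg (q.1 - u), neg_sub]
    rw [h4] at h3
    linarith
  have hlim : Tendsto (fun n => (pc d / 2) *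
      ∑ q ∈ bdE U U, hV V' q.1 * thU n (U : Set (V d)) (pc d + ε₁) q.2) atTop
      (𝓝 ((pc d / 2) * ∑ q ∈ bdE U U, hV V' q.1 *
        (thA (pc d + ε₁) (Del.ofSet (U : Set (V d))) q.2).toReal)) := by
    refine Tendsto.const_mul _ (tendsto_finsetSum _ fun q _ => Tendsto.const_mul _ ?_)
    exact thU_tendsto (U : Set (V d)) (pc d + ε₁) q.2
  refine ge_of_tendsto hlim ?_
  filter_upwards [eventually_ge_atTop n0] with n hn
  exact hall n hn

end Pool.Agent.PB
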