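import Pool.Agent.PB.S3.Alpha
import Pool.Agent.PB.S3.Beta
import Pool.Agent.PB.L.Defs

/-!
# PB-S3-L122: section 12.2 (field `h2` of `In12`)

PLAN. e0 = min (1 - pc d) 1. p1 = pc + ε₁ ≤ 1, r = ⌈1/ε₁⌉₊ (1 ≤ r, 1/ε₁ ≤ r ≤ 2/ε₁). O = off (opn p1 ω) U; ClA (ofSet U) (opn p1 ω) y = Cl O y as y ∉ U
(`mem_clA_ofSet`). By `det122` (balls finite: `Bl_finite3`) and `sph_nonempty`, the event is contained in the union of the α-event (`alpha_bound`) and the
β-event (`beta_bound`). So P ≤ Gam d p1 r ^2 + 2 κ^{*3}(y'-y) P_{p1}(0 → (bx m 0)ᶜ) for every m; P_{p1}(0 → (bx m 0)ᶜ) → theta d p1 as m → ∞ (decreasing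
events, intersection = infinite cluster; `tendsto_measure_iInter_atTop`; this is `thU_tendsto` with U = ∅ if you import S3/FinP), the factor κ^{*3}
is finite, so P ≤ Gam² + 2 κ^{*3}(y'-y) theta d p1.
Constants: keepG, keepK: (p1/pc)^r = (1 + ε₁/pc)^r ≤ exp(r ε₁/pc) ≤ exp(2/pc) =: A (r ≤ 2/ε₁; `Real.one_add_le_exp`-type, `Real.add_one_le_exp`).
Gam d p1 r ≤ A C/r ≤ A C ε₁. κ = kap p1 r ≤ A kap pc r ≤ A tau pc (RchL.rch), so κ^{*3} ≤ A^3 tau^{*3} (cpow_mono, constants: conv_const_mul). tau^{*3}(x) ≤ tau^{*8}(0) < ⊤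
(`cpow_le_cpow`, `cpow_even_le_zero`, hC.B8). theta: h9.th_le: thr d p1 ≤ C' ε₁. Then toReal of everything; choose C = max of A²C², 2A³C', 1.
-/

set_option autoImplicit false
open MeasureTheory Filter Topology
open scoped ENNReal BigOperators

namespace Pool.Agent.PB

variable {d : ℕ}

private theorem l122_subset_bx {S : Set (V d)} (hS : S.Finite) : ∃ n, S ⊆ bx n (0 : V d) := by
  refine Set.Finite.induction_on (motive := fun S _ => ∃ n, S ⊆ bx n (0 : V d)) S hS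
    ⟨0, Set.empty_subset _⟩ ?_
  rintro a s _ _ ⟨n, hn⟩
  refine ⟨n + (l1 a).toNat, Set.insert_subset ?_ (hn.trans (bx_mono3 (Nat.le_add_right _ _) _))⟩
  intro i
  have h1 : |a i| ≤ l1 a := by
    unfold l1
    exact Finset.single_le_sum (f := fun i => |a i|) (fun j _ => abs_nonneg _) (Finset.mem_univ i)
  have h2 : l1 a ≤ ((l1 a).toNat : ℤ) := Int.self_le_toNat _
  simp only [Pi.zero_apply, sub_zero]
  push_cast
  have : (0 : ℤ) ≤ n := Int.natCast_nonneg n
  linarith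

private theorem l122_arm_tendsto (p : ℝ) :
    Tendsto (fun m : ℕ => Pr d {ω : Om d | ∃ c, c ∉ bx m (0 : V d) ∧ Rch (opn p ω) 0 c}) atTop
      (𝓝 (theta d p)) := by
  have hE : theta d p = Pr d (⋂ m : ℕ, {ω : Om d | ∃ c, c ∉ bx m (0 : V d) ∧ Rch (opn p ω) 0 c}) := by
    unfold theta
    congr 1
    ext ω
    simp only [Set.mem_ofPred_eq, Set.mem_iInter]
    constructor
    · intro h m
      by_contra hcon
      push Not at hcon
      refine h ((bx_finite3 m (0 : V d)).subset ?_)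
      intro c hc
      by_contra hcb
      exact hcon c hcb hc
    · intro h hfin
      obtain ⟨n, hn⟩ := l122_subset_bx hfin
      obtain ⟨c, hc, hr⟩ := h n
      exact hc (hn hr)
  rw [hE]
  refine tendsto_measure_iInter_atTop (fun m => MeasurableSet.nullMeasurableSet ?_) ?_
    ⟨0, measure_ne_top _ _⟩
  · have h := ((opn_MES (d := d) p).cl (0 : V d)).inter_const_nonempty {z | z ∉ bx m (0 : V d)}
    exact h
  · intro m n hmn ω hω
    obtain ⟨c, hc, hr⟩ := hω
    exact ⟨c, fun h => hc (bx_mono3 hmn _ h), hr⟩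

private theorem l122_event (p : ℝ) (U : Finset (V d)) {r : ℕ} (hr : 1 ≤ r) (m : ℕ) (y y' : V d) :
    Pr d {ω : Om d | (ClA (Del.ofSet (U : Set (V d))) (opn p ω) y).Infinite ∧
      (ClA (Del.ofSet (U : Set (V d))) (opn p ω) y').Infinite} ≤
    Gam d p r * Gam d p r + 2 * cpow (kap p r) 3 (y' - y) *
        Pr d {ω : Om d | ∃ c, c ∉ bx m (0 : V d) ∧ Rch (opn p ω) 0 c} := by
  refine le_trans (le_trans (measure_mono ?_) (measure_union_le _ _))
    (add_le_add (alpha_bound p (U : Set (V d)) hr y y') (beta_bound p (U : Set (V d)) r m y y'))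
  rintro ω ⟨h1, h2⟩
  have h1' : (Cl (off (opn p ω) (U : Set (V d))) y).Infinite :=
    h1.mono fun x hx => (mem_clA_ofSet.1 hx).2
  have h2' : (Cl (off (opn p ω) (U : Set (V d))) y').Infinite :=
    h2.mono fun x hx => (mem_clA_ofSet.1 hx).2
  rcases det122 (y := y) hr (fun n => Bl_finite3 p ω (U : Set (V d)) n y') h2' with h | h
  · exact Or.inl ⟨sph_nonempty (fun n => Bl_finite3 p ω (U : Set (V d)) n y) h1' r, h⟩
  · exact Or.inr ⟨h1', h⟩

private theorem l122_tau0 (p : ℝ) : 1 ≤ tau p (0 : V d) := by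
  have h : {ω : Om d | Rch (opn p ω) 0 0} = Set.univ :=
    Set.eq_univ_of_forall fun ω => Rch.refl _ _
  unfold tau
  rw [h, measure_univ]

private theorem l122_cpow3 (f : V d → ℝ≥0∞) (c : ℝ≥0∞) (x : V d) :
    cpow (fun x => c * f x) 3 x = c ^ 3 * cpow f 3 x := by
  rw [cpow_three, cpow_three, conv_const_mul_right, conv_const_mul_left, conv_const_mul_right,
    conv_const_mul_left, conv_const_mul_right]
  ring

theorem in12_2 {b : ℝ} (hC : Crit d) (h9 : Out9 d b) (h10 : Out10 d) :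
    ∃ C e0 : ℝ, 1 ≤ C ∧ 0 < e0 ∧ ∀ ε₁ : ℝ, 0 < ε₁ → ε₁ ≤ e0 → ∀ (U : Finset (V d)) (y y' : V d),
    y ∉ U → y' ∉ U → y ≠ y' →
    (Pr d {ω : Om d | (ClA (Del.ofSet (U : Set (V d))) (opn (pc d + ε₁) ω) y).Infinite ∧
      (ClA (Del.ofSet (U : Set (V d))) (opn (pc d + ε₁) ω) y').Infinite}).toReal ≤
      C * ε₁ ^ 2 + C * ε₁ * (cpow (tau (pc d)) 3 (y' - y)).toReal := by
  obtain ⟨C1, hC1, harm⟩ := h10.one_arm
  obtain ⟨C2, hC2, hth⟩ := h9.th_le
  have hpc := hC.pc_pos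
  set A : ℝ := Real.exp (2 / pc d) with hA
  have hA0 : 0 < A := Real.exp_pos _
  refine ⟨(A * C1) ^ 2 + 2 * A ^ 3 * C2 + 1, min (1 - pc d) 1, ?_, lt_min (by linarith [hC.pc_lt]) one_pos, ?_⟩
  · have : 0 ≤ 2 * A ^ 3 * C2 := by positivity
    nlinarith [sq_nonneg (A * C1)]
  intro ε hε hε0 U y y' hy hy' hyy'
  have hε1 : ε ≤ 1 := hε0.trans (min_le_right _ _)
  have hεp : ε ≤ 1 - pc d := hε0.trans (min_le_left _ _)
  set p1 : ℝ := pc d + ε with hp1
  have hp1a : pc d ≤ p1 := by linarith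
  have hp1b : p1 ≤ 1 := by linarith
  set r : ℕ := ⌈1 / ε⌉₊ with hr
  have hrl : 1 / ε ≤ (r : ℝ) := Nat.le_ceil _
  have hr1 : 1 ≤ r := Nat.one_le_ceil_iff.2 (by positivity)
  have hr0 : (0 : ℝ) < r := by exact_mod_cast hr1
  have hru : (r : ℝ) ≤ 2 / ε := by
    have h1 : (r : ℝ) < 1 / ε + 1 := Nat.ceil_lt_add_one (by positivity)
    have h2 : (1 : ℝ) ≤ 1 / ε := by rw [le_div_iff₀ hε]; linarith
    have h3 : 2 / ε = 1 / ε + 1 / ε := by ring
    rw [h3]; linarith
  have hpow : (p1 / pc d) ^ r ≤ A := by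
    have h1 : p1 / pc d ≤ Real.exp (ε / pc d) := by
      have h2 : p1 / pc d = ε / pc d + 1 := by
        rw [hp1]; field_simp; ring
      rw [h2]; exact Real.add_one_le_exp _
    have h3 : 0 ≤ p1 / pc d := by positivity
    calc (p1 / pc d) ^ r ≤ (Real.exp (ε / pc d)) ^ r := pow_le_pow_left₀ h3 h1 r
      _ = Real.exp (r * (ε / pc d)) := by rw [← Real.exp_nat_mul]
      _ ≤ A := by
          rw [hA]
          refine Real.exp_le_exp.2 ?_
          have h4 : (r : ℝ) * (ε / pc d) = (r * ε) / pc d := by ring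
          rw [h4]
          refine div_le_div_of_nonneg_right ?_ hpc.le
          calc (r : ℝ) * ε ≤ 2 / ε * ε := mul_le_mul_of_nonneg_right hru hε.le
            _ = 2 := by field_simp
  have hGam : Gam d p1 r ≤ ENNReal.ofReal (A * C1 * ε) := by
    calc Gam d p1 r ≤ ENNReal.ofReal ((p1 / pc d) ^ r) * Gam d (pc d) r := h10.keepG p1 r hp1a hp1b
      _ ≤ ENNReal.ofReal A * ENNReal.ofReal (C1 / r) :=
          mul_le_mul' (ENNReal.ofReal_le_ofReal hpow) (harm r hr1)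
      _ = ENNReal.ofReal (A * (C1 / r)) := (ENNReal.ofReal_mul hA0.le).symm
      _ ≤ ENNReal.ofReal (A * C1 * ε) := by
          refine ENNReal.ofReal_le_ofReal ?_
          rw [mul_assoc]
          refine mul_le_mul_of_nonneg_left ?_ hA0.le
          rw [div_eq_mul_inv]
          refine mul_le_mul_of_nonneg_left ?_ (by linarith)
          rw [inv_le_comm₀ hr0 hε, ← one_div]
          exact hrl
  have hkap : ∀ x : V d, kap p1 r x ≤ ENNReal.ofReal A * tau (pc d) x := by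
    intro x
    refine (h10.keepK p1 r x hp1a hp1b).trans
      (mul_le_mul' (ENNReal.ofReal_le_ofReal hpow) (measure_mono fun ω hω => RchL.rch hω))
  have hkap3 : cpow (kap p1 r) 3 (y' - y) ≤ ENNReal.ofReal A ^ 3 * cpow (tau (pc d)) 3 (y' - y) := by
    rw [← l122_cpow3]
    exact cpow_mono hkap 3 _
  have htfin : cpow (tau (pc d)) 3 (y' - y) < ⊤ := by
    refine lt_of_le_of_lt ((cpow_le_cpow (l122_tau0 (pc d)) (show 3 ≤ 4 + 4 by norm_num) _).trans
      (cpow_even_le_zero (fun x => tau_neg (pc d) x) 4 _)) hC.B8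
  have hlim : Pr d {ω : Om d | (ClA (Del.ofSet (U : Set (V d))) (opn p1 ω) y).Infinite ∧
      (ClA (Del.ofSet (U : Set (V d))) (opn p1 ω) y').Infinite} ≤
      Gam d p1 r * Gam d p1 r + 2 * cpow (kap p1 r) 3 (y' - y) * theta d p1 := by
    have hkfin : 2 * cpow (kap p1 r) 3 (y' - y) ≠ ⊤ := by
      refine ENNReal.mul_ne_top (by norm_num) (ne_top_of_le_ne_top ?_ hkap3)
      exact ENNReal.mul_ne_top (ENNReal.pow_ne_top ENNReal.ofReal_ne_top) htfin.ne
    have ht : Tendsto (fun m : ℕ => Gam d p1 r * Gam d p1 r + 2 * cpow (kap p1 r) 3 (y' - y) *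
        Pr d {ω : Om d | ∃ c, c ∉ bx m (0 : V d) ∧ Rch (opn p1 ω) 0 c}) atTop
        (𝓝 (Gam d p1 r * Gam d p1 r + 2 * cpow (kap p1 r) 3 (y' - y) * theta d p1)) :=
      tendsto_const_nhds.add (ENNReal.Tendsto.const_mul (l122_arm_tendsto p1) (Or.inr hkfin))
    exact ge_of_tendsto' ht fun m => l122_event p1 U hr1 m y y'
  have htheta : theta d p1 ≤ ENNReal.ofReal (C2 * ε) := by
    have h1 : theta d p1 ≠ ⊤ := measure_ne_top _ _
    rw [← ENNReal.ofReal_toReal h1]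
    refine ENNReal.ofReal_le_ofReal ((hth p1 hp1a hp1b).trans (le_of_eq ?_))
    rw [hp1]; ring
  set t : ℝ := (cpow (tau (pc d)) 3 (y' - y)).toReal with ht
  have ht0 : 0 ≤ t := ENNReal.toReal_nonneg
  have htE : cpow (tau (pc d)) 3 (y' - y) = ENNReal.ofReal t := (ENNReal.ofReal_toReal htfin.ne).symm
  have hfinal : Pr d {ω : Om d | (ClA (Del.ofSet (U : Set (V d))) (opn p1 ω) y).Infinite ∧
      (ClA (Del.ofSet (U : Set (V d))) (opn p1 ω) y').Infinite} ≤
      ENNReal.ofReal ((A * C1 * ε) * (A * C1 * ε) + 2 * (A ^ 3 * t) * (C2 * ε)) := by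
    refine hlim.trans ?_
    rw [ENNReal.ofReal_add (by positivity) (by positivity), ENNReal.ofReal_mul (by positivity),
      ENNReal.ofReal_mul (p := 2 * (A ^ 3 * t)) (by positivity), ENNReal.ofReal_mul (p := 2) (by positivity),
      ENNReal.ofReal_mul (p := A ^ 3) (by positivity), ENNReal.ofReal_pow hA0.le]
    refine add_le_add (mul_le_mul' hGam hGam) (mul_le_mul' (mul_le_mul' ?_ ?_) htheta)
    · simp
    · rw [← htE]; exact hkap3
  refine (ENNReal.toReal_le_of_le_ofReal (by positivity) hfinal).trans ?_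
  have e1 : 0 ≤ ε ^ 2 * (2 * A ^ 3 * C2 + 1) := by positivity
  have e2 : 0 ≤ ε * t * ((A * C1) ^ 2 + 1) := by positivity
  nlinarith [e1, e2]

end Pool.Agent.PB
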