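import Pool.Agent.PB.S3.Exit
import Pool.Agent.PB.L.Defs

/-!
# PB-S3-PhiSplit (12.1, first inequality): `φ_p(U ∪ S; u) ≤ Σ_{(x,y) ∈ ∂U} J τ(x-u) Ψ_S(y)`

`Ψ_S(y) = φ^U_p(S;y)` if `y ∈ S`, `1` otherwise; `U`, `S` disjoint finite sets, `u ∈ U`.

PLAN. phi p (U ∪ S) u = Σ_{z ∈ U ∪ S, w ∉ U ∪ S} J(w-z) P(u ↔ z in U ∪ S). Split z ∈ U / z ∈ S (`ENNReal.tsum_add`, indicators).
z ∈ U: the term is ≤ J(w-z) tau p (z-u) (Rch.mono, `tau_shift`), and (z,w) ∈ ∂U with w ∉ S: this is a term of the right side with Ψ = 1.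
z ∈ S: `exit_bound` with S := S, T := U ∪ S, a = z, b = u (u ∉ S): P(z ↔ u in T) ≤ Σ_{y ∈ S, x ∈ T \ S = U} J(x-y) P(z ↔ y in S) P(x ↔ u in T), P(x ↔ u in T) ≤
tau p (u-x) = tau p (x-u) (`tau_neg`), J(x-y) = J(y-x) (`J_even`). Multiply by J(w-z) and sum over z ∈ S, w ∉ U ∪ S: Σ_{z,w} J(w-z) P(y ↔ z in S) = phiU p U S y
(Rch symmetric: P(z ↔ y in S) = P(y ↔ z in S), `Rch.comm`). These are the terms y ∈ S (y ∉ U by disjointness). Interchange of sums:
ENNReal.tsum_comm, tsum_mul_left/right.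
`phi_split_fin`: the same as a finite sum over `bdE U U` (L/Defs.lean, `mem_bdE`): the terms with l1 (y - x) ≠ 1 vanish (J = 0).
-/

set_option autoImplicit false
open MeasureTheory Filter Topology
open scoped ENNReal BigOperators

namespace Pool.Agent.PB

variable {d : ℕ}

/-- `Ψ_S(y)` -/
noncomputable def Psi (p : ℝ) (U : Set (V d)) (S : Finset (V d)) (y : V d) : ℝ≥0∞ := by
  classical exact if y ∈ S then phiU p U S y else 1

theorem phi_split_fin (p : ℝ) (U S : Finset (V d)) (hdis : Disjoint U S) {u : V d} (hu : u ∈ U) :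
    phi p (U ∪ S) u ≤ ENNReal.ofReal p *
      ∑ q ∈ bdE U U, tau p (q.1 - u) * Psi p (U : Set (V d)) S q.2 := by
  classical
  let T : Finset (V d) := U ∪ S
  have huS : u ∉ S := fun h => Finset.disjoint_left.1 hdis hu h
  have hJe : ∀ x y : V d, J p (x - y) = J p (y - x) := by
    intro x y
    by_cases h : l1 (x - y) = 1
    · rw [J_eq_of h, J_eq_of (by rw [← neg_sub, l1_neg]; exact h)]
    · rw [J_eq_zero h, J_eq_zero (by rw [← neg_sub, l1_neg]; exact h)]
  let R : V d → ℝ≥0∞ := fun z => Pr d {ω | Rch (opn p ω ∩ ins (T : Set (V d))) u z}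
  have hRt : ∀ z, R z ≤ tau p (z - u) := by
    intro z
    rw [← tau_shift]
    exact measure_mono fun ω h => Rch.mono Set.inter_subset_left h
  let P : V d → V d → ℝ≥0∞ := fun y z => Pr d {ω | Rch (opn p ω ∩ ins (S : Set (V d))) y z}
  let a : V d × V d → ℝ≥0∞ := fun q =>
    if q.1 ∈ S ∧ q.2 ∉ S ∧ q.2 ∉ U then J p (q.2 - q.1) else 0
  let H : V d × V d → ℝ≥0∞ := fun q =>
    if q.1 ∈ U ∧ q.2 ∈ S then J p (q.2 - q.1) * tau p (q.1 - u) else 0
  let A : V d × V d → ℝ≥0∞ := fun q =>
    if q.1 ∈ U ∧ q.2 ∉ U ∧ q.2 ∉ S then J p (q.2 - q.1) * tau p (q.1 - u) else 0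
  let G : V d × V d → ℝ≥0∞ := fun q =>
    if q.1 ∈ U ∧ q.2 ∉ U then J p (q.2 - q.1) * (tau p (q.1 - u) * Psi p (U : Set (V d)) S q.2)
    else 0
  have hRHS : ENNReal.ofReal p * ∑ q ∈ bdE U U, tau p (q.1 - u) * Psi p (U : Set (V d)) S q.2 =
      ∑' q, G q := by
    rw [tsum_eq_sum (s := bdE U U) (f := G)]
    · rw [Finset.mul_sum]
      refine Finset.sum_congr rfl fun q hq => ?_
      have h := mem_bdE.1 hq
      simp only [G]
      rw [if_pos ⟨h.1, h.2.1⟩, J_eq_of h.2.2]
    · intro q hq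
      simp only [G]
      by_cases h : q.1 ∈ U ∧ q.2 ∉ U
      · rw [if_pos h, J_eq_zero, zero_mul]
        intro h1
        exact hq (mem_bdE.2 ⟨h.1, h.2, h1⟩)
      · rw [if_neg h]
  have hphiU : ∀ y : V d, phiU p (U : Set (V d)) S y = ∑' q : V d × V d, a q * P y q.1 := by
    intro y
    have h1 : ∑' q : V d × V d, a q * P y q.1 = ∑' z : V d, ∑' w : V d, a (z, w) * P y z :=
      ENNReal.tsum_prod (f := fun z w => a (z, w) * P y z)
    rw [h1]
    unfold phiU
    refine tsum_congr fun z => tsum_congr fun w => ?_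
    simp only [a, P]
    by_cases h : z ∈ S ∧ w ∉ S ∧ w ∉ U
    · have h' : z ∈ S ∧ w ∉ S ∧ w ∉ (U : Set (V d)) := h
      rw [if_pos h', if_pos h]
    · have h' : ¬ (z ∈ S ∧ w ∉ S ∧ w ∉ (U : Set (V d))) := h
      rw [if_neg h', if_neg h, zero_mul]
  have hexit : ∀ z ∈ S, R z ≤ ∑' q : V d × V d, H q * P q.2 z := by
    intro z hz
    have h1 := exit_bound p S (T : Set (V d)) (fun x hx => by
      simp only [T, Finset.coe_union, Set.mem_union]
      exact Or.inr hx) hz huS
    have h2 : R z = Pr d {ω | Rch (opn p ω ∩ ins (T : Set (V d))) z u} := by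
      simp only [R]
      congr 1
      ext ω
      exact Rch.comm
    have h3 : ∑' q : V d × V d, H q * P q.2 z = ∑' y : V d, ∑' x : V d, H (x, y) * P y z := by
      have h4 : ∑' q : V d × V d, H q * P q.2 z = ∑' x : V d, ∑' y : V d, H (x, y) * P y z :=
        ENNReal.tsum_prod (f := fun x y => H (x, y) * P y z)
      rw [h4]
      exact ENNReal.tsum_comm
    rw [h2, h3]
    refine h1.trans (ENNReal.tsum_le_tsum fun y => ENNReal.tsum_le_tsum fun x => ?_)
    by_cases h5 : ((y, x) : V d × V d) ∈ {q : V d × V d | q.1 ∈ S ∧ q.2 ∉ S ∧ q.2 ∈ (T : Set (V d))}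
    · rw [Set.indicator_of_mem h5]
      obtain ⟨h6, h7, h8⟩ := h5
      have h9 : x ∈ U := by
        have h8' : x ∈ U ∪ S := h8
        exact (Finset.mem_union.1 h8').resolve_right h7
      have h10 : H (x, y) = J p (y - x) * tau p (x - u) := by
        simp only [H]
        exact if_pos ⟨h9, h6⟩
      have h11 : Pr d {ω | Rch (opn p ω ∩ ins (S : Set (V d))) z y} = P y z := by
        simp only [P]
        congr 1
        ext ω
        exact Rch.comm
      have h12 : Pr d {ω | Rch (opn p ω ∩ ins (T : Set (V d))) x u} ≤ tau p (x - u) := by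
        rw [← tau_shift]
        exact measure_mono fun ω h => (Rch.mono Set.inter_subset_left h).symm
      change J p (x - y) * (Pr d {ω | Rch (opn p ω ∩ ins (S : Set (V d))) z y} *
        Pr d {ω | Rch (opn p ω ∩ ins (T : Set (V d))) x u}) ≤ _
      rw [h10, h11, hJe x y, mul_assoc, mul_comm (P y z)]
      gcongr
    · rw [Set.indicator_of_notMem h5]
      exact bot_le
  have hB : ∑' q : V d × V d, a q * R q.1 ≤
      ∑' q : V d × V d, H q * phiU p (U : Set (V d)) S q.2 := by
    calc ∑' q : V d × V d, a q * R q.1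
        ≤ ∑' q : V d × V d, a q * ∑' q' : V d × V d, H q' * P q'.2 q.1 := by
          refine ENNReal.tsum_le_tsum fun q => ?_
          by_cases h : q.1 ∈ S
          · gcongr
            exact hexit q.1 h
          · have h0 : a q = 0 := by
              simp only [a]
              exact if_neg fun h' => h h'.1
            rw [h0, zero_mul, zero_mul]
      _ = ∑' q : V d × V d, ∑' q' : V d × V d, H q' * (a q * P q'.2 q.1) := by
          refine tsum_congr fun q => ?_
          rw [← ENNReal.tsum_mul_left]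
          refine tsum_congr fun q' => ?_
          ring
      _ = ∑' q' : V d × V d, ∑' q : V d × V d, H q' * (a q * P q'.2 q.1) := ENNReal.tsum_comm
      _ = ∑' q : V d × V d, H q * phiU p (U : Set (V d)) S q.2 := by
          refine tsum_congr fun q' => ?_
          rw [ENNReal.tsum_mul_left, hphiU]
  have hLHS : phi p (U ∪ S) u ≤ ∑' q : V d × V d, (A q + a q * R q.1) := by
    have h1 : ∑' q : V d × V d, (A q + a q * R q.1) =
        ∑' z : V d, ∑' w : V d, (A (z, w) + a (z, w) * R z) :=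
      ENNReal.tsum_prod (f := fun z w => A (z, w) + a (z, w) * R z)
    rw [h1]
    unfold phi
    refine ENNReal.tsum_le_tsum fun z => ENNReal.tsum_le_tsum fun w => ?_
    by_cases h : z ∈ U ∪ S ∧ w ∉ U ∪ S
    · rw [if_pos h]
      have hwU : w ∉ U := fun h' => h.2 (Finset.mem_union_left _ h')
      have hwS : w ∉ S := fun h' => h.2 (Finset.mem_union_right _ h')
      rcases Finset.mem_union.1 h.1 with hz | hz
      · have h2 : A (z, w) = J p (w - z) * tau p (z - u) := by
          simp only [A]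
          exact if_pos ⟨hz, hwU, hwS⟩
        rw [h2]
        refine le_trans ?_ le_self_add
        gcongr
        exact hRt z
      · have h2 : a (z, w) = J p (w - z) := by
          simp only [a]
          exact if_pos ⟨hz, hwS, hwU⟩
        rw [h2]
        exact le_add_self
    · rw [if_neg h]
      exact bot_le
  rw [hRHS]
  refine hLHS.trans ?_
  rw [ENNReal.tsum_add]
  refine (add_le_add le_rfl hB).trans ?_
  rw [← ENNReal.tsum_add]
  refine ENNReal.tsum_le_tsum fun q => ?_
  simp only [A, H, G]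
  by_cases h1 : q.1 ∈ U
  · by_cases h2 : q.2 ∈ U
    · have h3 : q.2 ∉ S := fun h => Finset.disjoint_left.1 hdis h2 h
      rw [if_neg (fun h => h.2.1 h2), if_neg (fun h => h3 h.2), if_neg (fun h => h.2 h2)]
      simp
    · by_cases h3 : q.2 ∈ S
      · rw [if_neg (fun h => h.2.2 h3), if_pos ⟨h1, h3⟩, if_pos ⟨h1, h2⟩, zero_add, mul_assoc]
        unfold Psi
        rw [if_pos h3]
      · rw [if_pos ⟨h1, h2, h3⟩, if_neg (fun h => h3 h.2), if_pos ⟨h1, h2⟩, zero_mul, add_zero]
        unfold Psi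
        rw [if_neg h3, mul_one]
  · rw [if_neg (fun h => h1 h.1), if_neg (fun h => h1 h.1), if_neg (fun h => h1 h.1)]
    simp

end Pool.Agent.PB
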