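import Pool.Agent.PB.S3.Exit
import Pool.Agent.PB.P.Conv

/-!
# PB-S3-Ren: the renewal inequality `τ ≤ 1_S + a * τ`, `||a||_1 = φ_p(S)`

PLANS. `nrm_aS`: unfold, `ENNReal.tsum_comm`, `indicator` to `if` (phi is Σ_z Σ_w, nrm aS is Σ_w Σ_z).
`tau_renewal`: x ∈ S: tau ≤ 1 (`tau_le_one`). x ∉ S: `exit_bound` with T = Set.univ, a = 0, b = x (ins univ = univ, `Set.inter_univ`),
P(w ↔ x) = tau p (x - w) (`tau_shift`); then `ENNReal.tsum_comm` and `conv (aS p S) (tau p) x = Σ_w aS w tau (x - w)`,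
`ENNReal.tsum_mul_right`.
`aS_support`: aS p S w ≠ 0 only if w = z + e with z ∈ S, l1 e = 1: a finite set.
-/

set_option autoImplicit false
open MeasureTheory Filter Topology
open scoped ENNReal BigOperators

namespace Pool.Agent.PB

variable {d : ℕ}

/-- `a(w) = Σ_{z ∈ S} 1{w ∉ S} J(w-z) P(0 ↔ z in S)` -/
noncomputable def aS (p : ℝ) (S : Finset (V d)) (w : V d) : ℝ≥0∞ :=
  ∑' z : V d, Set.indicator {z : V d | z ∈ S ∧ w ∉ S}
    (fun z => J p (w - z) * Pr d {ω | Rch (opn p ω ∩ ins (S : Set (V d))) 0 z}) z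

theorem nrm_aS (p : ℝ) (S : Finset (V d)) : nrm (aS p S) = phi p S 0 := by
  classical
  unfold nrm aS phi
  rw [ENNReal.tsum_comm]
  refine tsum_congr fun z => tsum_congr fun w => ?_
  by_cases h : z ∈ S ∧ w ∉ S
  · rw [Set.indicator_of_mem (show z ∈ {z : V d | z ∈ S ∧ w ∉ S} from h), if_pos h]
  · rw [Set.indicator_of_notMem (show z ∉ {z : V d | z ∈ S ∧ w ∉ S} from h), if_neg h]

private theorem ins_univ' : ins (Set.univ : Set (V d)) = Set.univ :=
  Set.eq_univ_of_forall fun _ _ _ => Set.mem_univ _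

theorem tau_renewal (p : ℝ) {S : Finset (V d)} (h0 : (0 : V d) ∈ S) (x : V d) :
    tau p x ≤ Set.indicator (S : Set (V d)) 1 x + conv (aS p S) (tau p) x := by
  classical
  by_cases hx : x ∈ S
  · rw [Set.indicator_of_mem (Finset.mem_coe.2 hx)]
    exact (tau_le_one p x).trans le_self_add
  · refine le_trans ?_ le_add_self
    have h1 := exit_bound p S Set.univ (Set.subset_univ _) h0 hx
    simp only [ins_univ', Set.inter_univ] at h1
    refine h1.trans (le_of_eq ?_)
    rw [ENNReal.tsum_comm]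
    unfold conv
    refine tsum_congr fun w => ?_
    unfold aS
    rw [← ENNReal.tsum_mul_right]
    refine tsum_congr fun z => ?_
    by_cases h : z ∈ S ∧ w ∉ S
    · rw [Set.indicator_of_mem (show z ∈ {z : V d | z ∈ S ∧ w ∉ S} from h),
        Set.indicator_of_mem (show (z, w) ∈ {q : V d × V d | q.1 ∈ S ∧ q.2 ∉ S ∧
          q.2 ∈ (Set.univ : Set (V d))} from ⟨h.1, h.2, Set.mem_univ _⟩)]
      show J p (w - z) * (Pr d {ω | Rch (opn p ω ∩ ins (S : Set (V d))) 0 z} *
        Pr d {ω | Rch (opn p ω) w x}) = _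
      rw [tau_shift, mul_assoc]
    · rw [Set.indicator_of_notMem (show z ∉ {z : V d | z ∈ S ∧ w ∉ S} from h),
        Set.indicator_of_notMem (show (z, w) ∉ {q : V d × V d | q.1 ∈ S ∧ q.2 ∉ S ∧
          q.2 ∈ (Set.univ : Set (V d))} from fun hh => h ⟨hh.1, hh.2.1⟩), zero_mul]

theorem aS_support (p : ℝ) (S : Finset (V d)) : (Function.support (aS (d := d) p S)).Finite := by
  classical
  have hfin : (⋃ z ∈ S, ⋃ e ∈ U1 d, ({z + e} : Set (V d))).Finite := by
    refine S.finite_toSet.biUnion fun z _ => ?_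
    refine (U1 d).finite_toSet.biUnion fun e _ => Set.finite_singleton _
  refine hfin.subset ?_
  intro w hw
  rw [Function.mem_support] at hw
  unfold aS at hw
  obtain ⟨z, hz⟩ : ∃ z : V d, Set.indicator {z : V d | z ∈ S ∧ w ∉ S}
    (fun z => J p (w - z) * Pr d {ω | Rch (opn p ω ∩ ins (S : Set (V d))) 0 z}) z ≠ 0 := by
    by_contra hcon
    push Not at hcon
    exact hw (ENNReal.tsum_eq_zero.2 hcon)
  have hzS : z ∈ {z : V d | z ∈ S ∧ w ∉ S} := by
    by_contra hcon
    exact hz (Set.indicator_of_notMem hcon _)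
  rw [Set.indicator_of_mem hzS] at hz
  have hJ : l1 (w - z) = 1 := by
    by_contra hcon
    exact hz (by rw [J_zero_of_ne p hcon, zero_mul])
  simp only [Set.mem_iUnion, Set.mem_singleton_iff, exists_prop]
  exact ⟨z, hzS.1, w - z, (mem_U1 _).2 hJ, by abel⟩

end Pool.Agent.PB
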